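import Mathlib

set_option autoImplicit false

namespace Pool.Agent.H.MP_58d537_lc.A20

open Finset

/-- Flip one coordinate of a point of the cube. -/
def flip {N : ℕ} (x : Fin N → Bool) (i : Fin N) : Fin N → Bool :=
  Function.update x i (!(x i))

lemma flip_flip {N : ℕ} (x : Fin N → Bool) (i : Fin N) : flip (flip x i) i = x := by
  simp [flip]

/-- Flipping as an equivalence. -/
def flipEquiv {N : ℕ} (i : Fin N) : (Fin N → Bool) ≃ (Fin N → Bool) where
  toFun x := flip x i
  invFun x := flip x i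
  left_inv x := flip_flip x i
  right_inv x := flip_flip x i

lemma sum_flip {N : ℕ} {M : Type*} [AddCommMonoid M] (i : Fin N) (g : (Fin N → Bool) → M) :
    ∑ x, g (flip x i) = ∑ x, g x :=
  Equiv.sum_comp (flipEquiv i) g

lemma flip_cons_zero {n : ℕ} (b : Bool) (y : Fin n → Bool) :
    flip (Fin.cons b y : Fin (n + 1) → Bool) 0 = Fin.cons (!b) y := by
  funext j
  refine Fin.cases ?_ (fun j => ?_) j <;> simp [flip]

lemma flip_cons_succ {n : ℕ} (b : Bool) (y : Fin n → Bool) (j : Fin n) :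
    flip (Fin.cons b y : Fin (n + 1) → Bool) j.succ = Fin.cons b (flip y j) := by
  funext l
  refine Fin.cases ?_ (fun l => ?_) l
  · simp [flip, Function.update_apply, (Fin.succ_ne_zero j).symm]
  · simp only [flip, Fin.cons_succ, Function.update_apply, Fin.succ_inj]

lemma sum_cons {n : ℕ} (g : (Fin (n + 1) → Bool) → ℝ) :
    ∑ x, g x = ∑ y : Fin n → Bool, (g (Fin.cons true y) + g (Fin.cons false y)) := by
  rw [← (Fin.consEquiv (fun _ : Fin (n + 1) => Bool)).sum_comp, Fintype.sum_prod_type]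
  simp [Fin.consEquiv, Finset.sum_add_distrib]

/-- The Efron–Stein inequality on the cube, in unnormalised form. -/
theorem efronStein (N : ℕ) (f : (Fin N → Bool) → ℝ) :
    2 ^ N * ∑ x, f x ^ 2 - (∑ x, f x) ^ 2 ≤
      2 ^ N / 4 * ∑ i, ∑ x, (f x - f (flip x i)) ^ 2 := by
  induction N with
  | zero => simp
  | succ n ih =>
    have h1 := ih (fun y => f (Fin.cons true y))
    have h2 := ih (fun y => f (Fin.cons false y))
    have hcs := sq_sum_le_card_mul_sum_sq (s := (Finset.univ : Finset (Fin n → Bool)))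
      (f := fun y => f (Fin.cons true y) - f (Fin.cons false y))
    have hcard : ((Finset.univ : Finset (Fin n → Bool)).card : ℝ) = 2 ^ n := by
      simp
    rw [hcard] at hcs
    rw [Fin.sum_univ_succ]
    simp only [sum_cons, flip_cons_zero, flip_cons_succ, Bool.not_true, Bool.not_false]
    simp only [Finset.sum_add_distrib]
    simp only [Finset.sum_sub_distrib] at hcs
    have hsymm : ∑ y : Fin n → Bool, (f (Fin.cons false y) - f (Fin.cons true y)) ^ 2
        = ∑ y : Fin n → Bool, (f (Fin.cons true y) - f (Fin.cons false y)) ^ 2 := by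
      refine Finset.sum_congr rfl (fun y _ => by ring)
    rw [hsymm]
    rw [pow_succ]
    nlinarith [h1, h2, hcs]

/-- Uniform average over the cube. -/
noncomputable def avg {N : ℕ} (f : (Fin N → Bool) → ℝ) : ℝ := (∑ x, f x) / 2 ^ N

lemma avg_flip {N : ℕ} (i : Fin N) (f : (Fin N → Bool) → ℝ) :
    avg (fun x => f (flip x i)) = avg f := by
  simp only [avg, sum_flip i f]

lemma avg_mono {N : ℕ} {f g : (Fin N → Bool) → ℝ} (h : ∀ x, f x ≤ g x) : avg f ≤ avg g := by
  unfold avg
  have : ∑ x, f x ≤ ∑ x, g x := Finset.sum_le_sum (fun x _ => h x)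
  gcongr

lemma avg_add {N : ℕ} (f g : (Fin N → Bool) → ℝ) :
    avg (fun x => f x + g x) = avg f + avg g := by
  simp [avg, Finset.sum_add_distrib, add_div]

lemma avg_sub {N : ℕ} (f g : (Fin N → Bool) → ℝ) :
    avg (fun x => f x - g x) = avg f - avg g := by
  simp [avg, Finset.sum_sub_distrib, sub_div]

lemma avg_const_mul {N : ℕ} (c : ℝ) (f : (Fin N → Bool) → ℝ) :
    avg (fun x => c * f x) = c * avg f := by
  simp [avg, ← Finset.mul_sum, mul_div_assoc]

lemma avg_mul_const {N : ℕ} (c : ℝ) (f : (Fin N → Bool) → ℝ) :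
    avg (fun x => f x * c) = avg f * c := by
  simp only [mul_comm _ c, avg_const_mul]

lemma avg_const {N : ℕ} (c : ℝ) : avg (fun _ : Fin N → Bool => c) = c := by
  simp [avg]

lemma avg_sum {N : ℕ} {κ : Type*} (s : Finset κ) (f : κ → (Fin N → Bool) → ℝ) :
    avg (fun x => ∑ j ∈ s, f j x) = ∑ j ∈ s, avg (f j) := by
  simp only [avg]
  rw [Finset.sum_comm, Finset.sum_div]

lemma avg_nonneg {N : ℕ} {f : (Fin N → Bool) → ℝ} (h : ∀ x, 0 ≤ f x) : 0 ≤ avg f := by
  unfold avg
  have : 0 ≤ ∑ x, f x := Finset.sum_nonneg (fun x _ => h x)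
  positivity

/-- One-sided Efron–Stein inequality. -/
theorem efronStein_pos {N : ℕ} (f : (Fin N → Bool) → ℝ) :
    avg (fun x => f x ^ 2) - avg f ^ 2 ≤
      1 / 2 * avg (fun x => ∑ i, (max (f x - f (flip x i)) 0) ^ 2) := by
  have h := efronStein N f
  have hpos : (0 : ℝ) < 2 ^ N := by positivity
  have hi : ∀ i : Fin N, ∑ x, (f x - f (flip x i)) ^ 2
      = 2 * ∑ x, (max (f x - f (flip x i)) 0) ^ 2 := by
    intro i
    have h1 : ∀ x, (f x - f (flip x i)) ^ 2
        = (max (f x - f (flip x i)) 0) ^ 2 + (max (f (flip x i) - f x) 0) ^ 2 := by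
      intro x
      rcases le_total (f x) (f (flip x i)) with h | h
      · rw [max_eq_right (by linarith), max_eq_left (by linarith)]; ring
      · rw [max_eq_left (by linarith), max_eq_right (by linarith)]; ring
    have h2 : ∑ x, (max (f (flip x i) - f x) 0) ^ 2
        = ∑ x, (max (f x - f (flip x i)) 0) ^ 2 := by
      have := sum_flip i (fun x => (max (f x - f (flip x i)) 0) ^ 2)
      simp only [flip_flip] at this
      exact this
    rw [Finset.sum_congr rfl (fun x _ => h1 x), Finset.sum_add_distrib, h2]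
    ring
  simp only [hi] at h
  rw [← Finset.mul_sum] at h
  have e : avg (fun x => ∑ i, (max (f x - f (flip x i)) 0) ^ 2)
      = (∑ i, ∑ x, (max (f x - f (flip x i)) 0) ^ 2) / 2 ^ N := by
    unfold avg
    rw [Finset.sum_comm]
  rw [e]
  unfold avg
  have key : (∑ x, f x ^ 2) / 2 ^ N - ((∑ x, f x) / 2 ^ N) ^ 2
      = (2 ^ N * ∑ x, f x ^ 2 - (∑ x, f x) ^ 2) / (2 ^ N) ^ 2 := by
    field_simp
  rw [key, div_le_iff₀ (by positivity)]
  calc 2 ^ N * ∑ x, f x ^ 2 - (∑ x, f x) ^ 2
      ≤ 2 ^ N / 4 * (2 * ∑ i, ∑ x, (max (f x - f (flip x i)) 0) ^ 2) := h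
    _ = 1 / 2 * ((∑ i, ∑ x, (max (f x - f (flip x i)) 0) ^ 2) / 2 ^ N) * (2 ^ N) ^ 2 := by
        field_simp
        ring

end Pool.Agent.H.MP_58d537_lc.A20
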