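import Mathlib
import Pool.Agent.H.MP_58d537_lc.A20.Cube

set_option autoImplicit false

namespace Pool.Agent.H.MP_58d537_lc.A20

open Finset

lemma pow_sub_pow_le_mul {a b : ℝ} (hb : 0 ≤ b) (hab : b ≤ a) (n : ℕ) :
    a ^ (n + 1) - b ^ (n + 1) ≤ (n + 1) * a ^ n * (a - b) := by
  have ha : 0 ≤ a := hb.trans hab
  induction n with
  | zero => simp
  | succ n ih =>
    have h1 : b ^ (n + 1) ≤ a ^ (n + 1) := pow_le_pow_left₀ hb hab _
    have h2 : a ^ (n + 1 + 1) - b ^ (n + 1 + 1)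
        = a * (a ^ (n + 1) - b ^ (n + 1)) + b ^ (n + 1) * (a - b) := by ring
    have h3 : a * (a ^ (n + 1) - b ^ (n + 1)) ≤ a * ((n + 1) * a ^ n * (a - b)) :=
      mul_le_mul_of_nonneg_left ih ha
    have h4 : b ^ (n + 1) * (a - b) ≤ a ^ (n + 1) * (a - b) :=
      mul_le_mul_of_nonneg_right h1 (by linarith)
    rw [h2]
    push_cast
    calc a * (a ^ (n + 1) - b ^ (n + 1)) + b ^ (n + 1) * (a - b)
        ≤ a * ((n + 1) * a ^ n * (a - b)) + a ^ (n + 1) * (a - b) := add_le_add h3 h4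
      _ = (n + 1 + 1) * a ^ (n + 1) * (a - b) := by ring

/-- Moment step for one nonnegative function whose one-sided differences are controlled. -/
lemma moment_one {N : ℕ} (W v : (Fin N → Bool) → ℝ) (hW : ∀ x, 0 ≤ W x)
    (hd : ∀ x, ∑ i, (max (W x - W (flip x i)) 0) ^ 2 ≤ W x * v x) (n : ℕ) :
    avg (fun x => W x ^ (2 * n + 2)) ≤
      avg (fun x => W x ^ (2 * n + 1) * (avg W + 1 / 2 * (n + 1) ^ 2 * v x)) := by
  have h := efronStein_pos (fun x => W x ^ (n + 1))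
  have h1 : ∀ x i, (max (W x ^ (n + 1) - W (flip x i) ^ (n + 1)) 0) ^ 2
      ≤ ((n + 1) * W x ^ n) ^ 2 * (max (W x - W (flip x i)) 0) ^ 2 := by
    intro x i
    rcases le_total (W x) (W (flip x i)) with hle | hle
    · have : W x ^ (n + 1) ≤ W (flip x i) ^ (n + 1) := pow_le_pow_left₀ (hW x) hle _
      rw [max_eq_right (by linarith), max_eq_right (by linarith)]
      simp
    · have h2 : W (flip x i) ^ (n + 1) ≤ W x ^ (n + 1) := pow_le_pow_left₀ (hW _) hle _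
      rw [max_eq_left (by linarith), max_eq_left (by linarith), ← mul_pow]
      have h3 := pow_sub_pow_le_mul (hW (flip x i)) hle n
      exact pow_le_pow_left₀ (by linarith) h3 2
  have h2 : avg (fun x => ∑ i, (max (W x ^ (n + 1) - W (flip x i) ^ (n + 1)) 0) ^ 2)
      ≤ avg (fun x => (n + 1) ^ 2 * (W x ^ (2 * n + 1) * v x)) := by
    refine avg_mono (fun x => ?_)
    calc ∑ i, (max (W x ^ (n + 1) - W (flip x i) ^ (n + 1)) 0) ^ 2
        ≤ ∑ i, ((n + 1) * W x ^ n) ^ 2 * (max (W x - W (flip x i)) 0) ^ 2 :=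
          Finset.sum_le_sum (fun i _ => h1 x i)
      _ = ((n + 1) * W x ^ n) ^ 2 * ∑ i, (max (W x - W (flip x i)) 0) ^ 2 := by
          rw [Finset.mul_sum]
      _ ≤ ((n + 1) * W x ^ n) ^ 2 * (W x * v x) :=
          mul_le_mul_of_nonneg_left (hd x) (by positivity)
      _ = (n + 1) ^ 2 * (W x ^ (2 * n + 1) * v x) := by ring
  have h3 : avg (fun x => W x ^ (n + 1)) ^ 2 ≤ avg W * avg (fun x => W x ^ (2 * n + 1)) := by
    have hcs := Finset.sum_sq_le_sum_mul_sum_of_sq_le_mul (Finset.univ)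
      (r := fun x => W x ^ (n + 1)) (f := W) (g := fun x => W x ^ (2 * n + 1))
      (fun x _ => hW x) (fun x _ => pow_nonneg (hW x) _) (fun x _ => le_of_eq (by ring))
    unfold avg
    rw [div_pow, div_mul_div_comm]
    have hpos : (0 : ℝ) < 2 ^ N := by positivity
    rw [← sq]
    gcongr
  have h4 : avg (fun x => W x ^ (2 * n + 1) * (avg W + 1 / 2 * (n + 1) ^ 2 * v x))
      = avg W * avg (fun x => W x ^ (2 * n + 1))
        + 1 / 2 * avg (fun x => (n + 1) ^ 2 * (W x ^ (2 * n + 1) * v x)) := by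
    rw [← avg_const_mul, ← avg_const_mul, ← avg_add]
    congr 1
    funext x
    ring
  have h5 : avg (fun x => (W x ^ (n + 1)) ^ 2) = avg (fun x => W x ^ (2 * n + 2)) := by
    congr 1
    funext x
    ring
  rw [h5] at h
  rw [h4]
  linarith

lemma young_aux {a b : ℝ} (ha : 0 ≤ a) (hb : 0 ≤ b) (m : ℕ) :
    a ^ (m + 1) * b ≤ 1 / 2 * a ^ (m + 2) + 2 ^ m * (a * b ^ (m + 1)) := by
  rcases le_total b (a / 2) with h | h
  · have h1 : a ^ (m + 1) * b ≤ a ^ (m + 1) * (a / 2) :=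
      mul_le_mul_of_nonneg_left h (by positivity)
    have h2 : 0 ≤ 2 ^ m * (a * b ^ (m + 1)) := by positivity
    calc a ^ (m + 1) * b ≤ a ^ (m + 1) * (a / 2) := h1
      _ = 1 / 2 * a ^ (m + 2) := by ring
      _ ≤ _ := by linarith
  · have h1 : a ^ m ≤ (2 * b) ^ m := pow_le_pow_left₀ ha (by linarith) m
    have h2 : 0 ≤ 1 / 2 * a ^ (m + 2) := by positivity
    calc a ^ (m + 1) * b = a ^ m * (a * b) := by ring
      _ ≤ (2 * b) ^ m * (a * b) := mul_le_mul_of_nonneg_right h1 (by positivity)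
      _ = 2 ^ m * (a * b ^ (m + 1)) := by rw [mul_pow]; ring
      _ ≤ _ := by linarith

/-- Moment step for a family of weights with total mass at most `k`. -/
lemma moment_family {N M : ℕ} (W : Fin M → (Fin N → Bool) → ℝ) (v : (Fin N → Bool) → ℝ)
    (hW : ∀ j x, 0 ≤ W j x) (hv : ∀ x, 0 ≤ v x) {k τ : ℝ} (hτ : 0 ≤ τ)
    (hk : ∀ x, ∑ j, W j x ≤ k) (havg : ∀ j, avg (W j) ≤ τ)
    (hd : ∀ j x, ∑ i, (max (W j x - W j (flip x i)) 0) ^ 2 ≤ W j x * v x) (n : ℕ) :
    avg (fun x => ∑ j, W j x ^ (2 * n + 2)) ≤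
      2 ^ (2 * n + 1) * (k * avg (fun x => (τ + 1 / 2 * (n + 1) ^ 2 * v x) ^ (2 * n + 1))) := by
  set b : (Fin N → Bool) → ℝ := fun x => τ + 1 / 2 * (n + 1) ^ 2 * v x with hb
  have hb0 : ∀ x, 0 ≤ b x := fun x => by
    have := hv x
    simp only [hb]; positivity
  have h1 : avg (fun x => ∑ j, W j x ^ (2 * n + 2)) ≤
      avg (fun x => ∑ j, W j x ^ (2 * n + 1) * b x) := by
    rw [avg_sum, avg_sum]
    refine Finset.sum_le_sum (fun j _ => ?_)
    refine (moment_one (W j) v (hW j) (hd j) n).trans ?_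
    refine avg_mono (fun x => ?_)
    have : avg (W j) + 1 / 2 * (n + 1) ^ 2 * v x ≤ b x := by
      simp only [hb]; linarith [havg j]
    exact mul_le_mul_of_nonneg_left this (pow_nonneg (hW j x) _)
  have h2 : avg (fun x => ∑ j, W j x ^ (2 * n + 1) * b x) ≤
      avg (fun x => 1 / 2 * (∑ j, W j x ^ (2 * n + 2)) + 2 ^ (2 * n) * (k * b x ^ (2 * n + 1))) := by
    refine avg_mono (fun x => ?_)
    calc ∑ j, W j x ^ (2 * n + 1) * b x
        ≤ ∑ j, (1 / 2 * W j x ^ (2 * n + 2) + 2 ^ (2 * n) * (W j x * b x ^ (2 * n + 1))) :=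
          Finset.sum_le_sum (fun j _ => young_aux (hW j x) (hb0 x) (2 * n))
      _ = 1 / 2 * (∑ j, W j x ^ (2 * n + 2))
          + 2 ^ (2 * n) * ((∑ j, W j x) * b x ^ (2 * n + 1)) := by
          rw [Finset.sum_add_distrib, Finset.mul_sum, Finset.sum_mul, Finset.mul_sum]
      _ ≤ 1 / 2 * (∑ j, W j x ^ (2 * n + 2)) + 2 ^ (2 * n) * (k * b x ^ (2 * n + 1)) := by
          have : (∑ j, W j x) * b x ^ (2 * n + 1) ≤ k * b x ^ (2 * n + 1) :=
            mul_le_mul_of_nonneg_right (hk x) (pow_nonneg (hb0 x) _)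
          have h2 : (0 : ℝ) ≤ 2 ^ (2 * n) := by positivity
          nlinarith [mul_le_mul_of_nonneg_left this h2]
  have h3 : avg (fun x => 1 / 2 * (∑ j, W j x ^ (2 * n + 2))
        + 2 ^ (2 * n) * (k * b x ^ (2 * n + 1)))
      = 1 / 2 * avg (fun x => ∑ j, W j x ^ (2 * n + 2))
        + 2 ^ (2 * n) * (k * avg (fun x => b x ^ (2 * n + 1))) := by
    rw [avg_add, avg_const_mul, avg_const_mul, avg_const_mul]
  rw [h3] at h2
  have h4 : (2 : ℝ) ^ (2 * n + 1) = 2 * 2 ^ (2 * n) := by ring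
  rw [h4]
  linarith

end Pool.Agent.H.MP_58d537_lc.A20
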