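import Mathlib
import Pool.Agent.H.MP_58d537_lc.A20.Moment

set_option autoImplicit false

namespace Pool.Agent.H.MP_58d537_lc.A20

open Finset

/-- An abstract query algorithm: contractions, an oracle, and projections recording
which coordinate is being queried. -/
structure Alg (N : ℕ) (H : Type*) [NormedAddCommGroup H] [InnerProductSpace ℂ H] where
  /-- oracle -/
  O : (Fin N → Bool) → (H →L[ℂ] H)
  /-- evolution after each query round -/
  V : ℕ → (H →L[ℂ] H)
  /-- projection on the part of the state whose phase depends on a coordinate -/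
  P : Fin N → (H →L[ℂ] H)
  /-- initial state -/
  st0 : H
  /-- number of parallel queries -/
  k : ℝ
  hO : ∀ x, ‖O x‖ ≤ 1
  hV : ∀ t, ‖V t‖ ≤ 1
  h0 : ‖st0‖ ≤ 1
  hP : ∀ i u v, inner ℂ (P i u) v = inner ℂ (P i u) (P i v)
  hk : ∀ v, ∑ i, ‖P i v‖ ^ 2 ≤ k * ‖v‖ ^ 2
  hflip : ∀ x i v, O (flip x i) v = O x (v - (2 : ℂ) • P i v)

variable {N : ℕ} {H : Type*} [NormedAddCommGroup H] [InnerProductSpace ℂ H]

/-- State before the query round number `t`. -/
noncomputable def Alg.st (A : Alg N H) : ℕ → (Fin N → Bool) → H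
  | 0, _ => A.st0
  | t + 1, x => A.V t (A.O x (A.st t x))

lemma Alg.st_norm (A : Alg N H) (t : ℕ) (x : Fin N → Bool) : ‖A.st t x‖ ≤ 1 := by
  induction t with
  | zero => exact A.h0
  | succ t ih =>
    calc ‖A.V t (A.O x (A.st t x))‖ ≤ ‖A.V t‖ * (‖A.O x‖ * ‖A.st t x‖) :=
          (ContinuousLinearMap.le_opNorm _ _).trans
            (mul_le_mul_of_nonneg_left (ContinuousLinearMap.le_opNorm _ _) (norm_nonneg _))
      _ ≤ 1 * (1 * 1) := by
          gcongr
          · exact A.hV t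
          · exact A.hO x
      _ = 1 := by norm_num

lemma Alg.back [CompleteSpace H] (A : Alg N H) (t : ℕ) (x : Fin N → Bool) (v : H) :
    ∃ β : ℕ → H, (∀ s, ‖β s‖ ≤ ‖v‖) ∧
      ∀ i, ‖inner ℂ v (A.st t (flip x i) - A.st t x)‖ ≤
        2 * ∑ s ∈ range t, ‖A.P i (β s)‖ * ‖A.P i (A.st s (flip x i))‖ := by
  induction t generalizing v with
  | zero =>
    refine ⟨fun _ => v, fun _ => le_rfl, fun i => ?_⟩
    simp [Alg.st]
  | succ t ih =>
    set u : H := ContinuousLinearMap.adjoint (A.O x) (ContinuousLinearMap.adjoint (A.V t) v)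
      with hu
    obtain ⟨β, hβ, hβ'⟩ := ih u
    have hun : ‖u‖ ≤ ‖v‖ := by
      calc ‖u‖ ≤ ‖ContinuousLinearMap.adjoint (A.O x)‖ *
            (‖ContinuousLinearMap.adjoint (A.V t)‖ * ‖v‖) :=
            (ContinuousLinearMap.le_opNorm _ _).trans
              (mul_le_mul_of_nonneg_left (ContinuousLinearMap.le_opNorm _ _) (norm_nonneg _))
        _ ≤ 1 * (1 * ‖v‖) := by
            rw [LinearIsometryEquiv.norm_map, LinearIsometryEquiv.norm_map]
            gcongr
            · exact A.hO x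
            · exact A.hV t
        _ = ‖v‖ := by ring
    refine ⟨fun s => if s < t then β s else u, fun s => ?_, fun i => ?_⟩
    · by_cases h : s < t
      · simp only [h, if_true]; exact (hβ s).trans hun
      · simp only [h, if_false]; exact hun
    · have e : A.st (t + 1) (flip x i) - A.st (t + 1) x
          = A.V t (A.O x ((A.st t (flip x i) - A.st t x)
            - (2 : ℂ) • A.P i (A.st t (flip x i)))) := by
        change A.V t (A.O (flip x i) (A.st t (flip x i))) - A.V t (A.O x (A.st t x)) = _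
        rw [A.hflip, ← map_sub, ← map_sub]
        congr 2
        abel
      have e2 : inner ℂ v (A.st (t + 1) (flip x i) - A.st (t + 1) x)
          = inner ℂ u (A.st t (flip x i) - A.st t x)
            - 2 * inner ℂ u (A.P i (A.st t (flip x i))) := by
        rw [e, ← ContinuousLinearMap.adjoint_inner_left, ← ContinuousLinearMap.adjoint_inner_left,
          inner_sub_right, inner_smul_right]
      have e3 : ‖inner ℂ u (A.P i (A.st t (flip x i)))‖
          ≤ ‖A.P i u‖ * ‖A.P i (A.st t (flip x i))‖ := by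
        have h1 : inner ℂ u (A.P i (A.st t (flip x i)))
            = inner ℂ (A.P i u) (A.P i (A.st t (flip x i))) := by
          rw [← inner_conj_symm, A.hP, inner_conj_symm]
        rw [h1]
        exact norm_inner_le_norm _ _
      rw [e2, Finset.sum_range_succ]
      simp only [lt_irrefl, if_false]
      have hs : ∑ s ∈ range t, ‖A.P i (if s < t then β s else u)‖ * ‖A.P i (A.st s (flip x i))‖
          = ∑ s ∈ range t, ‖A.P i (β s)‖ * ‖A.P i (A.st s (flip x i))‖ := by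
        refine Finset.sum_congr rfl (fun s hs => ?_)
        rw [if_pos (Finset.mem_range.mp hs)]
      rw [hs]
      calc ‖inner ℂ u (A.st t (flip x i) - A.st t x)
            - 2 * inner ℂ u (A.P i (A.st t (flip x i)))‖
          ≤ ‖inner ℂ u (A.st t (flip x i) - A.st t x)‖
            + ‖(2 : ℂ) * inner ℂ u (A.P i (A.st t (flip x i)))‖ := norm_sub_le _ _
        _ ≤ 2 * ∑ s ∈ range t, ‖A.P i (β s)‖ * ‖A.P i (A.st s (flip x i))‖
            + 2 * (‖A.P i u‖ * ‖A.P i (A.st t (flip x i))‖) := by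
            refine add_le_add (hβ' i) ?_
            rw [norm_mul]
            simp only [Complex.norm_ofNat]
            exact mul_le_mul_of_nonneg_left e3 (by norm_num)
        _ = _ := by ring

/-- Query weight of coordinate `i` in round `s`. -/
noncomputable def Alg.w (A : Alg N H) (s : ℕ) (i : Fin N) (x : Fin N → Bool) : ℝ :=
  ‖A.P i (A.st s x)‖ ^ 2

/-- Largest query weight in round `s` (at the neighbours of `x`). -/
noncomputable def Alg.mu (A : Alg N H) (s : ℕ) (x : Fin N → Bool) : ℝ :=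
  ⨆ i, A.w s i (flip x i)

lemma Alg.w_nonneg (A : Alg N H) (s : ℕ) (i : Fin N) (x : Fin N → Bool) : 0 ≤ A.w s i x := by
  unfold Alg.w; positivity

lemma Alg.w_le_mu (A : Alg N H) (s : ℕ) (i : Fin N) (x : Fin N → Bool) :
    A.w s i (flip x i) ≤ A.mu s x :=
  le_ciSup (f := fun i => A.w s i (flip x i)) (Set.finite_range _).bddAbove i

lemma Alg.mu_nonneg (A : Alg N H) (s : ℕ) (x : Fin N → Bool) : 0 ≤ A.mu s x :=
  Real.iSup_nonneg (fun i => A.w_nonneg s i _)

lemma Alg.P_norm_le (A : Alg N H) (i : Fin N) (v : H) : ‖A.P i v‖ ≤ ‖v‖ := by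
  have h1 : ‖A.P i v‖ ^ 2 ≤ ‖A.P i v‖ * ‖v‖ := by
    have h2 := norm_inner_le_norm (𝕜 := ℂ) (A.P i v) v
    rw [A.hP, inner_self_eq_norm_sq_to_K] at h2
    simpa using h2
  by_contra hlt
  push Not at hlt
  have h3 : 0 ≤ ‖v‖ := norm_nonneg v
  nlinarith

lemma Alg.w_le_one (A : Alg N H) (s : ℕ) (i : Fin N) (x : Fin N → Bool) : A.w s i x ≤ 1 := by
  unfold Alg.w
  have h1 := (A.P_norm_le i (A.st s x)).trans (A.st_norm s x)
  have h2 := norm_nonneg (A.P i (A.st s x))
  nlinarith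

lemma Alg.mu_le_one (A : Alg N H) (s : ℕ) (x : Fin N → Bool) : A.mu s x ≤ 1 :=
  Real.iSup_le (fun i => A.w_le_one s i _) zero_le_one

lemma Alg.k_nonneg_of (A : Alg N H) (v : H) (hv : v ≠ 0) : 0 ≤ A.k := by
  have h1 := A.hk v
  have h2 : 0 ≤ ∑ i, ‖A.P i v‖ ^ 2 := Finset.sum_nonneg (fun i _ => by positivity)
  have h3 : 0 < ‖v‖ ^ 2 := by positivity
  by_contra hneg
  push Not at hneg
  nlinarith

lemma Alg.sum_w_le (A : Alg N H) (hk0 : 0 ≤ A.k) (s : ℕ) (x : Fin N → Bool) :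
    ∑ i, A.w s i x ≤ A.k := by
  calc ∑ i, A.w s i x ≤ A.k * ‖A.st s x‖ ^ 2 := A.hk _
    _ ≤ A.k * 1 := by
        refine mul_le_mul_of_nonneg_left ?_ hk0
        have := A.st_norm s x
        have h2 := norm_nonneg (A.st s x)
        nlinarith
    _ = A.k := mul_one _

lemma Alg.mu_pow_le (A : Alg N H) (s : ℕ) (x : Fin N → Bool) (q : ℕ) :
    A.mu s x ^ (q + 1) ≤ ∑ i, A.w s i (flip x i) ^ (q + 1) := by
  rcases isEmpty_or_nonempty (Fin N) with h | h
  · have : A.mu s x = 0 := by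
      unfold Alg.mu
      exact Real.iSup_of_isEmpty _
    rw [this]
    simp
  · obtain ⟨i, hi⟩ := exists_eq_ciSup_of_finite (f := fun i => A.w s i (flip x i))
    have hmu : A.mu s x = A.w s i (flip x i) := hi.symm
    rw [hmu]
    exact Finset.single_le_sum (f := fun i => A.w s i (flip x i) ^ (q + 1))
      (fun j _ => pow_nonneg (A.w_nonneg s j _) _) (Finset.mem_univ i)

/-- The controlling function for one-sided differences of weights of round `t`. -/
noncomputable def Alg.v (A : Alg N H) (t : ℕ) (x : Fin N → Bool) : ℝ :=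
  16 * t * A.k * ∑ s ∈ range t, A.mu s x

/-- One-sided differences of the weight of a projection `Q`. -/
lemma Alg.diff [CompleteSpace H] (A : Alg N H) (Q : H →L[ℂ] H)
    (hQ : ∀ u v, inner ℂ (Q u) v = inner ℂ (Q u) (Q v)) (t : ℕ) (x : Fin N → Bool) :
    ∑ i, (max (‖Q (A.st t x)‖ ^ 2 - ‖Q (A.st t (flip x i))‖ ^ 2) 0) ^ 2
      ≤ ‖Q (A.st t x)‖ ^ 2 * A.v t x := by
  obtain ⟨β, hβ, hβ'⟩ := A.back t x (Q (A.st t x))
  have key : ∀ i, (max (‖Q (A.st t x)‖ ^ 2 - ‖Q (A.st t (flip x i))‖ ^ 2) 0) ^ 2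
      ≤ 16 * t * ∑ s ∈ range t, A.mu s x * ‖A.P i (β s)‖ ^ 2 := by
    intro i
    have h1 : ‖Q (A.st t x)‖ ^ 2 - ‖Q (A.st t (flip x i))‖ ^ 2 ≤
        4 * ∑ s ∈ range t, ‖A.P i (β s)‖ * ‖A.P i (A.st s (flip x i))‖ := by
      set δ := A.st t (flip x i) - A.st t x with hδ
      have e1 : Q (A.st t (flip x i)) = Q (A.st t x) + Q δ := by
        rw [hδ, map_sub]; abel
      have e2 : ‖Q (A.st t (flip x i))‖ ^ 2
          = ‖Q (A.st t x)‖ ^ 2 + 2 * RCLike.re (inner ℂ (Q (A.st t x)) (Q δ)) + ‖Q δ‖ ^ 2 := by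
        rw [e1, norm_add_sq (𝕜 := ℂ)]
      have e3 : -‖inner ℂ (Q (A.st t x)) δ‖ ≤ RCLike.re (inner ℂ (Q (A.st t x)) (Q δ)) := by
        rw [← hQ]
        exact neg_le_of_abs_le (RCLike.abs_re_le_norm _)
      have e4 := hβ' i
      have e5 : 0 ≤ ‖Q δ‖ ^ 2 := by positivity
      rw [e2]
      linarith
    have h0 : 0 ≤ ∑ s ∈ range t, ‖A.P i (β s)‖ * ‖A.P i (A.st s (flip x i))‖ :=
      Finset.sum_nonneg (fun s _ => by positivity)
    have h2 : max (‖Q (A.st t x)‖ ^ 2 - ‖Q (A.st t (flip x i))‖ ^ 2) 0 ≤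
        4 * ∑ s ∈ range t, ‖A.P i (β s)‖ * ‖A.P i (A.st s (flip x i))‖ :=
      max_le h1 (by linarith)
    have h3 := sq_sum_le_card_mul_sum_sq (s := range t)
      (f := fun s => ‖A.P i (β s)‖ * ‖A.P i (A.st s (flip x i))‖)
    rw [Finset.card_range] at h3
    calc (max (‖Q (A.st t x)‖ ^ 2 - ‖Q (A.st t (flip x i))‖ ^ 2) 0) ^ 2
        ≤ (4 * ∑ s ∈ range t, ‖A.P i (β s)‖ * ‖A.P i (A.st s (flip x i))‖) ^ 2 :=
          pow_le_pow_left₀ (le_max_right _ _) h2 2
      _ = 16 * (∑ s ∈ range t, ‖A.P i (β s)‖ * ‖A.P i (A.st s (flip x i))‖) ^ 2 := by ring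
      _ ≤ 16 * (t * ∑ s ∈ range t, (‖A.P i (β s)‖ * ‖A.P i (A.st s (flip x i))‖) ^ 2) :=
          mul_le_mul_of_nonneg_left h3 (by norm_num)
      _ ≤ 16 * (t * ∑ s ∈ range t, A.mu s x * ‖A.P i (β s)‖ ^ 2) := by
          gcongr with s hs
          rw [mul_pow, mul_comm]
          exact mul_le_mul_of_nonneg_right (A.w_le_mu s i x) (by positivity)
      _ = _ := by ring
  calc ∑ i, (max (‖Q (A.st t x)‖ ^ 2 - ‖Q (A.st t (flip x i))‖ ^ 2) 0) ^ 2
      ≤ ∑ i, 16 * t * ∑ s ∈ range t, A.mu s x * ‖A.P i (β s)‖ ^ 2 :=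
        Finset.sum_le_sum (fun i _ => key i)
    _ = 16 * t * ∑ s ∈ range t, A.mu s x * ∑ i, ‖A.P i (β s)‖ ^ 2 := by
        rw [← Finset.mul_sum, Finset.sum_comm]
        simp only [Finset.mul_sum]
    _ ≤ 16 * t * ∑ s ∈ range t, A.mu s x * (A.k * ‖Q (A.st t x)‖ ^ 2) := by
        rcases eq_or_ne (Q (A.st t x)) 0 with h | h
        · have hz : ∀ s, β s = 0 := fun s => by
            have := hβ s
            rw [h, norm_zero] at this
            exact norm_le_zero_iff.mp this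
          simp [hz, h]
        · have hk0 := A.k_nonneg_of _ h
          gcongr with s hs
          · exact A.mu_nonneg s x
          · refine (A.hk (β s)).trans ?_
            exact mul_le_mul_of_nonneg_left (pow_le_pow_left₀ (norm_nonneg _) (hβ s) 2) hk0
    _ = ‖Q (A.st t x)‖ ^ 2 * A.v t x := by
        unfold Alg.v
        rw [← Finset.sum_mul]
        ring

end Pool.Agent.H.MP_58d537_lc.A20
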