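import Mathlib
import Pool.Agent.H.MP_58d537_lc.A20.Abs

set_option autoImplicit false

namespace Pool.Agent.H.MP_58d537_lc.A20

open Finset

variable {N : ℕ} {H : Type*} [NormedAddCommGroup H] [InnerProductSpace ℂ H]

lemma sum_pow_aux (t m : ℕ) (τ c : ℝ) (hτ : 0 ≤ τ) (hc : 0 ≤ c) (f : ℕ → ℝ) (hf : ∀ s, 0 ≤ f s) :
    (τ + c * ∑ s ∈ range t, f s) ^ (m + 1) ≤
      (t + 1) ^ m * (τ ^ (m + 1) + c ^ (m + 1) * ∑ s ∈ range t, f s ^ (m + 1)) := by
  let g : ℕ → ℝ := fun s => match s with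
    | 0 => τ
    | s + 1 => c * f s
  have hg : ∀ s ∈ range (t + 1), 0 ≤ g s := by
    intro s _
    cases s with
    | zero => exact hτ
    | succ s => exact mul_nonneg hc (hf s)
  have h := pow_sum_div_card_le_sum_pow (s := range (t + 1)) (f := g) hg m
  rw [Finset.sum_range_succ', Finset.sum_range_succ', Finset.card_range] at h
  simp only [g] at h
  rw [div_le_iff₀ (by positivity)] at h
  calc (τ + c * ∑ s ∈ range t, f s) ^ (m + 1)
      = (∑ k ∈ range t, c * f k + τ) ^ (m + 1) := by rw [Finset.mul_sum, add_comm]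
    _ ≤ _ := h
    _ = _ := by
      simp only [mul_pow]
      rw [← Finset.mul_sum]
      push_cast
      ring

lemma mu_pow_avg_le (A : Alg N H) (s q : ℕ) :
    avg (fun x => A.mu s x ^ (q + 1)) ≤ avg (fun x => ∑ i, A.w s i x ^ (q + 1)) := by
  calc avg (fun x => A.mu s x ^ (q + 1))
      ≤ avg (fun x => ∑ i, A.w s i (flip x i) ^ (q + 1)) := avg_mono (fun x => A.mu_pow_le s x q)
    _ = ∑ i, avg (fun x => A.w s i (flip x i) ^ (q + 1)) := avg_sum _ _
    _ = ∑ i, avg (fun x => A.w s i x ^ (q + 1)) :=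
        Finset.sum_congr rfl (fun i _ => avg_flip i (fun x => A.w s i x ^ (q + 1)))
    _ = _ := (avg_sum _ _).symm

/-- The moment recursion. -/
lemma moment_rec [CompleteSpace H] (A : Alg N H) (hk1 : 1 ≤ A.k) (r : ℕ) {τ : ℝ} (hτ : 0 ≤ τ)
    (hτ1 : τ ≤ 1) (hl : ∀ t < r, ∀ i, avg (A.w t i) ≤ τ) (t : ℕ) :
    ∀ e : ℕ, t < r → t + 1 + e ≤ 2 * r →
      avg (fun x => ∑ j, A.w t j x ^ (2 * (t + 1 + e))) ≤
        (64 * (r : ℝ) ^ 4 * A.k ^ 2) ^ (2 * (t + 1 + e) * (t + 1)) * τ ^ (2 * e + 1) := by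
  have hk0 : 0 ≤ A.k := by linarith
  induction t using Nat.strong_induction_on with
  | _ t ih =>
  intro e htr hn
  have hr1 : (1 : ℝ) ≤ r := by
    have : 1 ≤ r := by omega
    exact_mod_cast this
  set D : ℝ := 64 * (r : ℝ) ^ 4 * A.k ^ 2 with hD
  have hD1 : 1 ≤ D := by
    have h1 : (1 : ℝ) ≤ (r : ℝ) ^ 4 := one_le_pow₀ hr1
    have h2 : (1 : ℝ) ≤ A.k ^ 2 := one_le_pow₀ hk1
    nlinarith [mul_le_mul h1 h2 (by norm_num) (by positivity)]
  have hDk : A.k ≤ D := by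
    have h1 : (1 : ℝ) ≤ (r : ℝ) ^ 4 := one_le_pow₀ hr1
    have h2 : A.k ≤ A.k ^ 2 := by nlinarith
    have h3 : A.k ^ 2 ≤ (r : ℝ) ^ 4 * A.k ^ 2 := by nlinarith [sq_nonneg A.k]
    nlinarith [sq_nonneg A.k]
  rcases Nat.eq_zero_or_pos t with ht0 | htpos
  · subst ht0
    have hconst : ∀ j x, A.w 0 j x ≤ τ := by
      intro j x
      have h1 := hl 0 htr j
      have h2 : avg (A.w 0 j) = A.w 0 j x := by
        have : A.w 0 j = fun _ => A.w 0 j x := by
          funext y; simp [Alg.w, Alg.st]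
        rw [this, avg_const]
      rw [← h2]; exact h1
    have hpt : ∀ x : Fin N → Bool, ∑ j, A.w 0 j x ^ (2 * (0 + 1 + e)) ≤ A.k * τ ^ (2 * e + 1) := by
      intro x
      calc ∑ j, A.w 0 j x ^ (2 * (0 + 1 + e)) = ∑ j, A.w 0 j x * A.w 0 j x ^ (2 * e + 1) := by
            refine Finset.sum_congr rfl (fun j _ => by ring)
        _ ≤ ∑ j, A.w 0 j x * τ ^ (2 * e + 1) := by
            gcongr with j hj
            · exact A.w_nonneg 0 j x
            · exact A.w_nonneg 0 j x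
            · exact hconst j x
        _ = (∑ j, A.w 0 j x) * τ ^ (2 * e + 1) := by rw [Finset.sum_mul]
        _ ≤ A.k * τ ^ (2 * e + 1) :=
            mul_le_mul_of_nonneg_right (A.sum_w_le hk0 0 x) (by positivity)
    calc avg (fun x => ∑ j, A.w 0 j x ^ (2 * (0 + 1 + e)))
        ≤ avg (fun _ : Fin N → Bool => A.k * τ ^ (2 * e + 1)) := avg_mono hpt
      _ = A.k * τ ^ (2 * e + 1) := avg_const _
      _ ≤ D ^ (2 * (0 + 1 + e) * (0 + 1)) * τ ^ (2 * e + 1) := by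
          refine mul_le_mul_of_nonneg_right ?_ (by positivity)
          refine hDk.trans ?_
          exact le_self_pow₀ hD1 (by omega)
  · set m : ℕ := t + e with hm
    have hm1 : 1 ≤ m := by omega
    set c0 : ℝ := 32 * (r : ℝ) ^ 3 * A.k with hc0
    have hc01 : 1 ≤ c0 := by
      have h1 : (1 : ℝ) ≤ (r : ℝ) ^ 3 := one_le_pow₀ hr1
      nlinarith [mul_le_mul h1 hk1 (by norm_num) (by positivity)]
    have hfam := moment_family (fun j => A.w t j) (A.v t) (fun j x => A.w_nonneg t j x)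
      (fun x => by
        unfold Alg.v
        have : 0 ≤ ∑ s ∈ range t, A.mu s x := Finset.sum_nonneg (fun s _ => A.mu_nonneg s x)
        positivity)
      hτ (fun x => A.sum_w_le hk0 t x) (fun j => hl t htr j)
      (fun j x => A.diff (A.P j) (A.hP j) t x) m
    have hexp : 2 * (t + 1 + e) = 2 * m + 2 := by omega
    have hb : ∀ x, (τ + 1 / 2 * ((m : ℝ) + 1) ^ 2 * A.v t x) ^ (2 * m + 1) ≤
        ((t : ℝ) + 1) ^ (2 * m) * (τ ^ (2 * m + 1)
          + c0 ^ (2 * m + 1) * ∑ s ∈ range t, A.mu s x ^ (2 * m + 1)) := by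
      intro x
      have hS : 0 ≤ ∑ s ∈ range t, A.mu s x := Finset.sum_nonneg (fun s _ => A.mu_nonneg s x)
      have h1 : τ + 1 / 2 * ((m : ℝ) + 1) ^ 2 * A.v t x ≤ τ + c0 * ∑ s ∈ range t, A.mu s x := by
        unfold Alg.v
        have hmr : (m : ℝ) + 1 ≤ 2 * r := by
          have : m + 1 ≤ 2 * r := by omega
          exact_mod_cast this
        have htr' : (t : ℝ) ≤ r := by exact_mod_cast htr.le
        have h2 : ((m : ℝ) + 1) ^ 2 * t ≤ (2 * r) ^ 2 * r := by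
          gcongr
        have h3 : 1 / 2 * ((m : ℝ) + 1) ^ 2 * (16 * t * A.k * ∑ s ∈ range t, A.mu s x)
            = 8 * (((m : ℝ) + 1) ^ 2 * t) * (A.k * ∑ s ∈ range t, A.mu s x) := by ring
        have h4 : c0 * ∑ s ∈ range t, A.mu s x
            = 8 * ((2 * (r : ℝ)) ^ 2 * r) * (A.k * ∑ s ∈ range t, A.mu s x) := by
          rw [hc0]; ring
        rw [h3, h4]
        have h5 : 0 ≤ A.k * ∑ s ∈ range t, A.mu s x := mul_nonneg hk0 hS
        gcongr
      have h0 : 0 ≤ τ + 1 / 2 * ((m : ℝ) + 1) ^ 2 * A.v t x := by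
        unfold Alg.v
        positivity
      refine (pow_le_pow_left₀ h0 h1 _).trans ?_
      exact sum_pow_aux t (2 * m) τ c0 hτ (by linarith) (fun s => A.mu s x)
        (fun s => A.mu_nonneg s x)
    have hmu : ∀ s < t, avg (fun x => A.mu s x ^ (2 * m + 1)) ≤
        D ^ (2 * (t + 1 + e) * t) * τ ^ (2 * e + 1) := by
      intro s hs
      have h1 : avg (fun x => A.mu s x ^ (2 * m + 1)) ≤ avg (fun x => A.mu s x ^ (2 * m)) :=
        avg_mono (fun x => pow_le_pow_of_le_one (A.mu_nonneg s x) (A.mu_le_one s x) (by omega))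
      have h2 := mu_pow_avg_le A s (2 * m - 1)
      rw [show 2 * m - 1 + 1 = 2 * m by omega] at h2
      obtain ⟨e', he'⟩ : ∃ e', s + 1 + e' = m := ⟨m - (s + 1), by omega⟩
      have h3 := ih s hs e' (by omega) (by omega)
      rw [he'] at h3
      have hee : e ≤ e' := by omega
      calc avg (fun x => A.mu s x ^ (2 * m + 1)) ≤ avg (fun x => A.mu s x ^ (2 * m)) := h1
        _ ≤ _ := h2
        _ ≤ D ^ (2 * m * (s + 1)) * τ ^ (2 * e' + 1) := h3
        _ ≤ D ^ (2 * (t + 1 + e) * t) * τ ^ (2 * e + 1) := by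
            have hx1 : D ^ (2 * m * (s + 1)) ≤ D ^ (2 * (t + 1 + e) * t) :=
              pow_le_pow_right₀ hD1 (Nat.mul_le_mul (by omega) (by omega))
            have hx2 : τ ^ (2 * e' + 1) ≤ τ ^ (2 * e + 1) :=
              pow_le_pow_of_le_one hτ hτ1 (by omega)
            exact mul_le_mul hx1 hx2 (by positivity) (by positivity)
    rw [hexp] at *
    refine hfam.trans ?_
    have hb2 : avg (fun x => (τ + 1 / 2 * ((m : ℝ) + 1) ^ 2 * A.v t x) ^ (2 * m + 1)) ≤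
        ((t : ℝ) + 1) ^ (2 * m) * (τ ^ (2 * m + 1)
          + c0 ^ (2 * m + 1) * (t * (D ^ ((2 * m + 2) * t) * τ ^ (2 * e + 1)))) := by
      refine (avg_mono hb).trans ?_
      rw [avg_const_mul, avg_add, avg_const, avg_const_mul, avg_sum]
      have : ∑ s ∈ range t, avg (fun x => A.mu s x ^ (2 * m + 1)) ≤
          t * (D ^ ((2 * m + 2) * t) * τ ^ (2 * e + 1)) := by
        calc ∑ s ∈ range t, avg (fun x => A.mu s x ^ (2 * m + 1))
            ≤ ∑ s ∈ range t, D ^ ((2 * m + 2) * t) * τ ^ (2 * e + 1) :=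
              Finset.sum_le_sum (fun s hs => hmu s (Finset.mem_range.mp hs))
          _ = _ := by rw [Finset.sum_const, Finset.card_range, nsmul_eq_mul]
      gcongr
    have hτm : τ ^ (2 * m + 1) ≤ τ ^ (2 * e + 1) := pow_le_pow_of_le_one hτ hτ1 (by omega)
    have hbig : (1 : ℝ) ≤ c0 ^ (2 * m + 1) * D ^ ((2 * m + 2) * t) := by
      have h1 : (1 : ℝ) ≤ c0 ^ (2 * m + 1) := one_le_pow₀ hc01
      have h2 : (1 : ℝ) ≤ D ^ ((2 * m + 2) * t) := one_le_pow₀ hD1
      nlinarith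
    have h3 : τ ^ (2 * m + 1)
          + c0 ^ (2 * m + 1) * (t * (D ^ ((2 * m + 2) * t) * τ ^ (2 * e + 1)))
        ≤ ((t : ℝ) + 1) * (c0 ^ (2 * m + 1) * D ^ ((2 * m + 2) * t)) * τ ^ (2 * e + 1) := by
      have h4 : τ ^ (2 * e + 1) ≤
          (c0 ^ (2 * m + 1) * D ^ ((2 * m + 2) * t)) * τ ^ (2 * e + 1) := by
        have : 0 ≤ τ ^ (2 * e + 1) := by positivity
        nlinarith
      calc τ ^ (2 * m + 1)
          + c0 ^ (2 * m + 1) * (t * (D ^ ((2 * m + 2) * t) * τ ^ (2 * e + 1)))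
          ≤ (c0 ^ (2 * m + 1) * D ^ ((2 * m + 2) * t)) * τ ^ (2 * e + 1)
            + c0 ^ (2 * m + 1) * (t * (D ^ ((2 * m + 2) * t) * τ ^ (2 * e + 1))) := by
            linarith
        _ = _ := by ring
    have htr1 : (t : ℝ) + 1 ≤ r := by
      have : t + 1 ≤ r := htr
      exact_mod_cast this
    have hfin : A.k * (2 * ((t : ℝ) + 1) * c0) ^ (2 * m + 1) ≤ D ^ (2 * m + 2) := by
      have hx : 1 ≤ 2 * ((t : ℝ) + 1) * c0 := by
        have : (0 : ℝ) ≤ t := by positivity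
        nlinarith
      have hy : 2 * A.k * ((t : ℝ) + 1) * c0 ≤ D := by
        calc 2 * A.k * ((t : ℝ) + 1) * c0 ≤ 2 * A.k * (r : ℝ) * c0 := by gcongr
          _ = D := by rw [hc0, hD]; ring
      calc A.k * (2 * ((t : ℝ) + 1) * c0) ^ (2 * m + 1)
          ≤ A.k ^ (2 * m + 2) * (2 * ((t : ℝ) + 1) * c0) ^ (2 * m + 2) := by
            refine mul_le_mul (le_self_pow₀ hk1 (by omega))
              (pow_le_pow_right₀ hx (by omega)) (by positivity) (by positivity)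
        _ = (2 * A.k * ((t : ℝ) + 1) * c0) ^ (2 * m + 2) := by rw [← mul_pow]; ring
        _ ≤ D ^ (2 * m + 2) := by gcongr
    calc 2 ^ (2 * m + 1) *
          (A.k * avg (fun x => (τ + 1 / 2 * ((m : ℝ) + 1) ^ 2 * A.v t x) ^ (2 * m + 1)))
        ≤ 2 ^ (2 * m + 1) * (A.k * (((t : ℝ) + 1) ^ (2 * m) *
          (((t : ℝ) + 1) * (c0 ^ (2 * m + 1) * D ^ ((2 * m + 2) * t)) * τ ^ (2 * e + 1)))) := by
          have := hb2.trans (mul_le_mul_of_nonneg_left h3 (by positivity))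
          gcongr
      _ = (A.k * (2 * ((t : ℝ) + 1) * c0) ^ (2 * m + 1)) *
            (D ^ ((2 * m + 2) * t) * τ ^ (2 * e + 1)) := by
          have hsplit : (2 * ((t : ℝ) + 1) * c0) ^ (2 * m + 1)
              = 2 ^ (2 * m + 1) * (((t : ℝ) + 1) ^ (2 * m) * ((t : ℝ) + 1)) * c0 ^ (2 * m + 1) := by
            rw [mul_pow, mul_pow, ← pow_succ]
          rw [hsplit]
          ring
      _ ≤ D ^ (2 * m + 2) * (D ^ ((2 * m + 2) * t) * τ ^ (2 * e + 1)) :=
          mul_le_mul_of_nonneg_right hfin (by positivity)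
      _ = D ^ ((2 * m + 2) * (t + 1)) * τ ^ (2 * e + 1) := by
          rw [← mul_assoc, ← pow_add]
          congr 2
          ring

/-- Light algorithms have small variance. -/
theorem light_var [CompleteSpace H] (A : Alg N H) (hk1 : 1 ≤ A.k) (r : ℕ) (hr : 1 ≤ r) {θ : ℝ}
    (hθ : 0 < θ) (hθ1 : θ ≤ 1) (hl : ∀ t < r, ∀ i, avg (A.w t i) ≤ θ ^ 2)
    (Q : H →L[ℂ] H) (hQ : ∀ u v, inner ℂ (Q u) v = inner ℂ (Q u) (Q v)) :
    avg (fun x => (‖Q (A.st r x)‖ ^ 2) ^ 2) - avg (fun x => ‖Q (A.st r x)‖ ^ 2) ^ 2 ≤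
      16 * (r : ℝ) ^ 2 * A.k * (64 * (r : ℝ) ^ 4 * A.k ^ 2) ^ r * θ := by
  have hk0 : 0 ≤ A.k := by linarith
  have hr1 : (1 : ℝ) ≤ r := by exact_mod_cast hr
  set D : ℝ := 64 * (r : ℝ) ^ 4 * A.k ^ 2 with hD
  have hD1 : 1 ≤ D := by
    have h1 : (1 : ℝ) ≤ (r : ℝ) ^ 4 := one_le_pow₀ hr1
    have h2 : (1 : ℝ) ≤ A.k ^ 2 := one_le_pow₀ hk1
    nlinarith [mul_le_mul h1 h2 (by norm_num) (by positivity)]
  set δ : ℝ := D ^ r * θ with hδ
  have hδ0 : 0 < δ := by positivity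
  have hQn : ∀ v, ‖Q v‖ ≤ ‖v‖ := by
    intro v
    have h1 : ‖Q v‖ ^ 2 ≤ ‖Q v‖ * ‖v‖ := by
      have h2 := norm_inner_le_norm (𝕜 := ℂ) (Q v) v
      rw [hQ, inner_self_eq_norm_sq_to_K] at h2
      simpa using h2
    by_contra hlt
    push Not at hlt
    have h3 : 0 ≤ ‖v‖ := norm_nonneg v
    nlinarith
  have hmu : ∀ s < r, avg (A.mu s) ≤ 2 * δ := by
    intro s hs
    obtain ⟨e, he⟩ : ∃ e, s + 1 + e = 2 * r := ⟨2 * r - (s + 1), by omega⟩
    have h1 := moment_rec A hk1 r (τ := θ ^ 2) (by positivity)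
      (pow_le_one₀ hθ.le hθ1) hl s e hs (by omega)
    rw [he] at h1
    have h2 := mu_pow_avg_le A s (2 * (2 * r) - 1)
    rw [show 2 * (2 * r) - 1 + 1 = 2 * (2 * r) by omega] at h2
    have h3 : D ^ (2 * (2 * r) * (s + 1)) * (θ ^ 2) ^ (2 * e + 1) ≤ δ ^ (2 * (2 * r)) := by
      calc D ^ (2 * (2 * r) * (s + 1)) * (θ ^ 2) ^ (2 * e + 1)
          ≤ D ^ (2 * (2 * r) * r) * θ ^ (2 * (2 * r)) := by
            have hx1 : D ^ (2 * (2 * r) * (s + 1)) ≤ D ^ (2 * (2 * r) * r) :=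
              pow_le_pow_right₀ hD1 (Nat.mul_le_mul le_rfl (by omega))
            have hx2 : (θ ^ 2) ^ (2 * e + 1) ≤ θ ^ (2 * (2 * r)) := by
              rw [← pow_mul]
              exact pow_le_pow_of_le_one hθ.le hθ1 (by omega)
            exact mul_le_mul hx1 hx2 (by positivity) (by positivity)
        _ = δ ^ (2 * (2 * r)) := by
            rw [hδ, mul_pow, ← pow_mul]
            ring
    have h4 : avg (fun x => A.mu s x ^ (2 * (2 * r))) ≤ δ ^ (2 * (2 * r)) := h2.trans (h1.trans h3)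
    have hq : 2 * (2 * r) = (4 * r - 1) + 1 := by omega
    rw [hq] at h4
    have h5 : ∀ x, A.mu s x * δ ^ (4 * r - 1) ≤ δ ^ (4 * r - 1 + 1) + A.mu s x ^ (4 * r - 1 + 1) := by
      intro x
      have hm0 := A.mu_nonneg s x
      rcases le_total (A.mu s x) δ with h | h
      · have : A.mu s x * δ ^ (4 * r - 1) ≤ δ * δ ^ (4 * r - 1) :=
          mul_le_mul_of_nonneg_right h (by positivity)
        have h6 : 0 ≤ A.mu s x ^ (4 * r - 1 + 1) := by positivity
        rw [pow_succ' δ]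
        linarith
      · have h7 : δ ^ (4 * r - 1) ≤ A.mu s x ^ (4 * r - 1) := pow_le_pow_left₀ hδ0.le h _
        have : A.mu s x * δ ^ (4 * r - 1) ≤ A.mu s x * A.mu s x ^ (4 * r - 1) :=
          mul_le_mul_of_nonneg_left h7 hm0
        have h6 : 0 ≤ δ ^ (4 * r - 1 + 1) := by positivity
        rw [pow_succ' (A.mu s x)]
        linarith
    have h8 : avg (A.mu s) * δ ^ (4 * r - 1) ≤ δ ^ (4 * r - 1 + 1) + δ ^ (4 * r - 1 + 1) := by
      calc avg (A.mu s) * δ ^ (4 * r - 1) = avg (fun x => A.mu s x * δ ^ (4 * r - 1)) :=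
            (avg_mul_const _ _).symm
        _ ≤ avg (fun x => δ ^ (4 * r - 1 + 1) + A.mu s x ^ (4 * r - 1 + 1)) := avg_mono h5
        _ = δ ^ (4 * r - 1 + 1) + avg (fun x => A.mu s x ^ (4 * r - 1 + 1)) := by
            rw [avg_add, avg_const]
        _ ≤ _ := by linarith
    have h9 : 0 < δ ^ (4 * r - 1) := by positivity
    rw [pow_succ] at h8
    have : avg (A.mu s) * δ ^ (4 * r - 1) ≤ (2 * δ) * δ ^ (4 * r - 1) := by linarith
    exact le_of_mul_le_mul_right this h9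
  have hES := efronStein_pos (fun x => ‖Q (A.st r x)‖ ^ 2)
  refine hES.trans ?_
  have h1 : avg (fun x => ∑ i, (max (‖Q (A.st r x)‖ ^ 2 - ‖Q (A.st r (flip x i))‖ ^ 2) 0) ^ 2)
      ≤ avg (fun x => 16 * r * A.k * ∑ s ∈ range r, A.mu s x) := by
    refine avg_mono (fun x => ?_)
    refine (A.diff Q hQ r x).trans ?_
    have h2 : ‖Q (A.st r x)‖ ^ 2 ≤ 1 := by
      have := (hQn (A.st r x)).trans (A.st_norm r x)
      have h3 := norm_nonneg (Q (A.st r x))
      nlinarith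
    have h3 : 0 ≤ A.v r x := by
      unfold Alg.v
      have : 0 ≤ ∑ s ∈ range r, A.mu s x := Finset.sum_nonneg (fun s _ => A.mu_nonneg s x)
      positivity
    calc ‖Q (A.st r x)‖ ^ 2 * A.v r x ≤ 1 * A.v r x := mul_le_mul_of_nonneg_right h2 h3
      _ = _ := by rw [one_mul, Alg.v]
  have h2 : avg (fun x => 16 * r * A.k * ∑ s ∈ range r, A.mu s x)
      ≤ 16 * r * A.k * (r * (2 * δ)) := by
    rw [avg_const_mul, avg_sum]
    have : ∑ s ∈ range r, avg (A.mu s) ≤ r * (2 * δ) := by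
      calc ∑ s ∈ range r, avg (A.mu s) ≤ ∑ s ∈ range r, 2 * δ :=
            Finset.sum_le_sum (fun s hs => hmu s (Finset.mem_range.mp hs))
        _ = _ := by rw [Finset.sum_const, Finset.card_range, nsmul_eq_mul]
    gcongr
  calc 1 / 2 * avg (fun x => ∑ i,
        (max (‖Q (A.st r x)‖ ^ 2 - ‖Q (A.st r (flip x i))‖ ^ 2) 0) ^ 2)
      ≤ 1 / 2 * (16 * r * A.k * (r * (2 * δ))) := by linarith [h1.trans h2]
    _ = 16 * (r : ℝ) ^ 2 * A.k * D ^ r * θ := by rw [hδ]; ring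

end Pool.Agent.H.MP_58d537_lc.A20
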