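import Mathlib
import Pool.Agent.H.MP_58d537_lc.A20.Light

set_option autoImplicit false

namespace Pool.Agent.H.MP_58d537_lc.A20

open Finset

/-- Override the coordinates in `S` by those of `a`. -/
def ov {N : ℕ} (S : Finset (Fin N)) (a x : Fin N → Bool) : Fin N → Bool :=
  fun i => if i ∈ S then a i else x i

lemma ov_flip_mem {N : ℕ} (S : Finset (Fin N)) (a x : Fin N → Bool) {i : Fin N} (hi : i ∈ S) :
    ov S a (flip x i) = ov S a x := by
  funext j
  unfold ov
  by_cases hj : j ∈ S
  · simp [hj]
  · have : j ≠ i := fun h => hj (h ▸ hi)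
    simp [hj, flip, Function.update_of_ne this]

lemma ov_flip_not_mem {N : ℕ} (S : Finset (Fin N)) (a x : Fin N → Bool) {i : Fin N} (hi : i ∉ S) :
    ov S a (flip x i) = flip (ov S a x) i := by
  funext j
  unfold ov flip
  by_cases hj : j ∈ S
  · have : j ≠ i := fun h => hi (h ▸ hj)
    simp [hj, Function.update_of_ne this]
  · by_cases hji : j = i
    · subst hji; simp [hj]
    · simp [hj, Function.update_of_ne hji]

lemma ov_insert {N : ℕ} (S : Finset (Fin N)) (a x : Fin N → Bool) {i : Fin N} (hi : i ∉ S)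
    (b : Bool) :
    ov (insert i S) (Function.update a i b) x = ov S a (Function.update x i b) := by
  funext j
  unfold ov
  by_cases hji : j = i
  · subst hji; simp [hi]
  · simp [hji, Function.update_of_ne hji]

lemma avg_split {N : ℕ} (S : Finset (Fin N)) (a : Fin N → Bool) {i : Fin N} (hi : i ∉ S)
    (g : (Fin N → Bool) → ℝ) :
    avg (fun x => g (ov (insert i S) (Function.update a i true) x)) +
      avg (fun x => g (ov (insert i S) (Function.update a i false) x)) =
    2 * avg (fun x => g (ov S a x)) := by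
  simp only [ov_insert S a _ hi]
  rw [← avg_add]
  have h : ∀ x : Fin N → Bool, g (ov S a (Function.update x i true)) +
      g (ov S a (Function.update x i false)) = g (ov S a x) + g (ov S a (flip x i)) := by
    intro x
    rcases hx : x i with _ | _
    · have h1 : Function.update x i false = x := by rw [← hx]; simp
      have h2 : Function.update x i true = flip x i := by simp [flip, hx]
      rw [h1, h2]; ring
    · have h1 : Function.update x i true = x := by rw [← hx]; simp
      have h2 : Function.update x i false = flip x i := by simp [flip, hx]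
      rw [h1, h2]
  simp only [h]
  rw [avg_add, avg_flip i (fun x => g (ov S a x))]
  ring

lemma avg_ov {N : ℕ} (S : Finset (Fin N)) (a : Fin N → Bool) (g : (Fin N → Bool) → ℝ) :
    avg (fun x => g (ov S a x)) =
      (∑ x ∈ Finset.univ.filter (fun x : Fin N → Bool => ∀ i ∈ S, x i = a i), g x) /
        ((Finset.univ.filter (fun x : Fin N → Bool => ∀ i ∈ S, x i = a i)).card : ℝ) := by
  classical
  set F := Finset.univ.filter (fun x : Fin N → Bool => ∀ i ∈ S, x i = a i) with hF
  have hmap : ∀ x ∈ (Finset.univ : Finset (Fin N → Bool)), ov S a x ∈ F := by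
    intro x _
    simp only [hF, Finset.mem_filter, Finset.mem_univ, true_and]
    intro i hi
    simp [ov, hi]
  have hfib : ∀ z ∈ F, (Finset.univ.filter (fun x : Fin N → Bool => ov S a x = z)).card
      = 2 ^ S.card := by
    intro z hz
    simp only [hF, Finset.mem_filter, Finset.mem_univ, true_and] at hz
    have : Finset.univ.filter (fun x : Fin N → Bool => ov S a x = z)
        = Fintype.piFinset (fun i => if i ∈ S then (Finset.univ : Finset Bool) else {z i}) := by
      ext x
      simp only [Finset.mem_filter, Finset.mem_univ, true_and, Fintype.mem_piFinset]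
      constructor
      · intro h i
        by_cases hi : i ∈ S
        · simp [hi]
        · have := congrFun h i
          simp only [ov, hi, if_false] at this
          simp [hi, this]
      · intro h
        funext i
        by_cases hi : i ∈ S
        · simp [ov, hi, hz i hi]
        · have := h i
          simp only [hi, if_false, Finset.mem_singleton] at this
          simp [ov, hi, this]
    rw [this, Fintype.card_piFinset]
    have h2 : ∀ i, (if i ∈ S then (Finset.univ : Finset Bool) else {z i}).card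
        = if i ∈ S then 2 else 1 := by
      intro i; by_cases hi : i ∈ S <;> simp [hi]
    simp only [h2]
    rw [Finset.prod_ite]
    simp
  have hsum : ∀ g : (Fin N → Bool) → ℝ, ∑ x, g (ov S a x) = 2 ^ S.card * ∑ z ∈ F, g z := by
    intro g
    rw [← Finset.sum_fiberwise_of_maps_to hmap, Finset.mul_sum]
    refine Finset.sum_congr rfl (fun z hz => ?_)
    calc ∑ x ∈ Finset.univ.filter (fun x : Fin N → Bool => ov S a x = z), g (ov S a x)
        = ∑ x ∈ Finset.univ.filter (fun x : Fin N → Bool => ov S a x = z), g z := by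
          refine Finset.sum_congr rfl (fun x hx => ?_)
          rw [(Finset.mem_filter.mp hx).2]
      _ = 2 ^ S.card * g z := by
          rw [Finset.sum_const, hfib z hz, nsmul_eq_mul]
          push_cast
          ring
  have h1 := hsum (fun _ => 1)
  simp only [Finset.sum_const, nsmul_eq_mul, mul_one, Finset.card_univ, Fintype.card_pi,
    Fintype.card_bool, Finset.prod_const, Fintype.card_fin] at h1
  push_cast at h1
  unfold avg
  rw [hsum g, h1]
  have h2 : (0 : ℝ) < 2 ^ S.card := by positivity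
  rw [mul_div_mul_left _ _ h2.ne']

variable {N : ℕ} {H : Type*} [NormedAddCommGroup H] [InnerProductSpace ℂ H]

/-- Restriction of an algorithm to the subcube `x_S = a_S`. -/
noncomputable def Alg.restrict (A : Alg N H) (S : Finset (Fin N)) (a : Fin N → Bool) : Alg N H where
  O x := A.O (ov S a x)
  V := A.V
  P i := if i ∈ S then 0 else A.P i
  st0 := A.st0
  k := A.k
  hO x := A.hO _
  hV := A.hV
  h0 := A.h0
  hP i u v := by
    by_cases hi : i ∈ S
    · simp [hi]
    · simp only [hi, if_false]; exact A.hP i u v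
  hk v := by
    refine le_trans (Finset.sum_le_sum (fun i _ => ?_)) (A.hk v)
    by_cases hi : i ∈ S
    · simp [hi]
    · simp [hi]
  hflip x i v := by
    by_cases hi : i ∈ S
    · rw [ov_flip_mem S a x hi]; simp [hi]
    · rw [ov_flip_not_mem S a x hi, A.hflip]; simp [hi]

lemma Alg.restrict_st (A : Alg N H) (S : Finset (Fin N)) (a : Fin N → Bool) (t : ℕ)
    (x : Fin N → Bool) : (A.restrict S a).st t x = A.st t (ov S a x) := by
  induction t with
  | zero => rfl
  | succ t ih =>
    change (A.restrict S a).V t ((A.restrict S a).O x ((A.restrict S a).st t x)) = _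
    rw [ih]
    rfl

lemma Alg.restrict_w_mem (A : Alg N H) (S : Finset (Fin N)) (a : Fin N → Bool) (t : ℕ)
    {i : Fin N} (hi : i ∈ S) : avg ((A.restrict S a).w t i) = 0 := by
  have : (A.restrict S a).w t i = fun _ => 0 := by
    funext x
    simp [Alg.w, Alg.restrict, hi]
  rw [this, avg_const]

lemma Alg.restrict_w_not_mem (A : Alg N H) (S : Finset (Fin N)) (a : Fin N → Bool) (t : ℕ)
    {i : Fin N} (hi : i ∉ S) :
    avg ((A.restrict S a).w t i) = avg (fun x => A.w t i (ov S a x)) := by
  congr 1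
  funext x
  unfold Alg.w
  rw [A.restrict_st]
  simp [Alg.restrict, hi]

/-- Total expected query weight of the restricted algorithm. -/
noncomputable def Alg.tw (A : Alg N H) (r : ℕ) (S : Finset (Fin N)) (a : Fin N → Bool) : ℝ :=
  ∑ t ∈ range r, ∑ i, avg ((A.restrict S a).w t i)

lemma Alg.tw_nonneg (A : Alg N H) (r : ℕ) (S : Finset (Fin N)) (a : Fin N → Bool) :
    0 ≤ A.tw r S a := by
  unfold Alg.tw
  refine Finset.sum_nonneg (fun t _ => Finset.sum_nonneg (fun i _ => avg_nonneg (fun x => ?_)))
  exact Alg.w_nonneg _ _ _ _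

lemma Alg.tw_split (A : Alg N H) (r : ℕ) (S : Finset (Fin N)) (a : Fin N → Bool) {i : Fin N}
    (hi : i ∉ S) :
    A.tw r (insert i S) (Function.update a i true) + A.tw r (insert i S) (Function.update a i false)
      = 2 * (A.tw r S a - ∑ t ∈ range r, avg ((A.restrict S a).w t i)) := by
  unfold Alg.tw
  rw [← Finset.sum_add_distrib, ← Finset.sum_sub_distrib, Finset.mul_sum]
  refine Finset.sum_congr rfl (fun t _ => ?_)
  rw [← Finset.sum_add_distrib, ← Finset.add_sum_erase _ _ (Finset.mem_univ i),
    ← Finset.add_sum_erase (Finset.univ) (fun j => avg ((A.restrict S a).w t j))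
      (Finset.mem_univ i)]
  rw [A.restrict_w_mem _ _ _ (Finset.mem_insert_self i S),
    A.restrict_w_mem _ _ _ (Finset.mem_insert_self i S)]
  have : ∑ j ∈ Finset.univ.erase i,
      (avg ((A.restrict (insert i S) (Function.update a i true)).w t j) +
        avg ((A.restrict (insert i S) (Function.update a i false)).w t j))
      = 2 * ∑ j ∈ Finset.univ.erase i, avg ((A.restrict S a).w t j) := by
    rw [Finset.mul_sum]
    refine Finset.sum_congr rfl (fun j hj => ?_)
    have hji : j ≠ i := Finset.ne_of_mem_erase hj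
    by_cases hjS : j ∈ S
    · rw [A.restrict_w_mem _ _ _ (Finset.mem_insert_of_mem hjS),
        A.restrict_w_mem _ _ _ (Finset.mem_insert_of_mem hjS), A.restrict_w_mem _ _ _ hjS]
      ring
    · have hj' : j ∉ insert i S := by simp [hji, hjS]
      rw [A.restrict_w_not_mem _ _ _ hj', A.restrict_w_not_mem _ _ _ hj',
        A.restrict_w_not_mem _ _ _ hjS]
      exact avg_split S a hi (A.w t j)
  rw [this]
  ring

/-- The potential argument. -/
lemma potential (A : Alg N H) (r : ℕ) (p : (Fin N → Bool) → ℝ) (c κ τ ε : ℝ) (hκ : 0 ≤ κ)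
    (hτ : 0 ≤ τ)
    (hlight : ∀ S a, (∀ t < r, ∀ i, avg ((A.restrict S a).w t i) ≤ τ) →
      avg (fun x => p (ov S a x) ^ 2) - avg (fun x => p (ov S a x)) ^ 2 ≤ ε) (n : ℕ) :
    ∀ (S : Finset (Fin N)) (a : Fin N → Bool), N - S.card ≤ n →
      ∃ (S' : Finset (Fin N)) (a' : Fin N → Bool),
        avg (fun x => (p (ov S a x) - c) ^ 2) - ε - κ * A.tw r S a ≤
          (avg (fun x => p (ov S' a' x)) - c) ^ 2 - κ * τ * ((S'.card : ℝ) - S.card) := by
  induction n with
  | zero =>
    intro S a hS
    refine ⟨S, a, ?_⟩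
    have hcard : S.card = N := by
      have := S.card_le_univ
      rw [Fintype.card_fin] at this
      omega
    have hSu : S = Finset.univ := by
      rw [← Finset.card_eq_iff_eq_univ, hcard, Fintype.card_fin]
    have hl := hlight S a (fun t _ i => by
      rw [A.restrict_w_mem _ _ _ (hSu ▸ Finset.mem_univ i)]; exact hτ)
    have htw := A.tw_nonneg r S a
    have e : avg (fun x => (p (ov S a x) - c) ^ 2)
        = (avg (fun x => p (ov S a x) ^ 2) - avg (fun x => p (ov S a x)) ^ 2)
          + (avg (fun x => p (ov S a x)) - c) ^ 2 := by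
      have : ∀ x, (p (ov S a x) - c) ^ 2
          = (p (ov S a x) ^ 2 + (-(2 * c)) * p (ov S a x)) + c ^ 2 := fun x => by ring
      simp only [this]
      rw [avg_add, avg_add, avg_const_mul, avg_const]
      ring
    rw [e]
    nlinarith [mul_nonneg hκ htw]
  | succ n ih =>
    intro S a hS
    by_cases hl : ∀ t < r, ∀ i, avg ((A.restrict S a).w t i) ≤ τ
    · refine ⟨S, a, ?_⟩
      have hl := hlight S a hl
      have htw := A.tw_nonneg r S a
      have e : avg (fun x => (p (ov S a x) - c) ^ 2)
          = (avg (fun x => p (ov S a x) ^ 2) - avg (fun x => p (ov S a x)) ^ 2)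
            + (avg (fun x => p (ov S a x)) - c) ^ 2 := by
        have : ∀ x, (p (ov S a x) - c) ^ 2
            = (p (ov S a x) ^ 2 + (-(2 * c)) * p (ov S a x)) + c ^ 2 := fun x => by ring
        simp only [this]
        rw [avg_add, avg_add, avg_const_mul, avg_const]
        ring
      rw [e]
      nlinarith [mul_nonneg hκ htw]
    · push Not at hl
      obtain ⟨t, ht, i, hi⟩ := hl
      have hiS : i ∉ S := by
        intro h
        rw [A.restrict_w_mem _ _ _ h] at hi
        linarith
      have hsum : τ ≤ ∑ t ∈ range r, avg ((A.restrict S a).w t i) := by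
        refine hi.le.trans ?_
        exact Finset.single_le_sum (f := fun t => avg ((A.restrict S a).w t i))
          (fun t _ => avg_nonneg (fun x => Alg.w_nonneg _ _ _ _)) (Finset.mem_range.mpr ht)
      have hcard : (insert i S).card = S.card + 1 := Finset.card_insert_of_notMem hiS
      have hn : N - (insert i S).card ≤ n := by rw [hcard]; omega
      obtain ⟨S1, a1, h1⟩ := ih (insert i S) (Function.update a i true) hn
      obtain ⟨S2, a2, h2⟩ := ih (insert i S) (Function.update a i false) hn
      have hsp := avg_split S a hiS (fun x => (p x - c) ^ 2)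
      have htw := A.tw_split r S a hiS
      rw [hcard] at h1 h2
      push_cast at h1 h2
      have hkt : κ * τ ≤ κ * ∑ t ∈ range r, avg ((A.restrict S a).w t i) :=
        mul_le_mul_of_nonneg_left hsum hκ
      have htw' : κ * A.tw r (insert i S) (Function.update a i true)
          + κ * A.tw r (insert i S) (Function.update a i false)
          = 2 * (κ * A.tw r S a - κ * ∑ t ∈ range r, avg ((A.restrict S a).w t i)) := by
        rw [← mul_add, htw]; ring
      rcases le_total (avg (fun x => (p (ov S a x) - c) ^ 2) - ε - κ * A.tw r S a)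
        ((avg (fun x => p (ov S1 a1 x)) - c) ^ 2 - κ * τ * ((S1.card : ℝ) - S.card)) with h | h
      · exact ⟨S1, a1, h⟩
      · refine ⟨S2, a2, ?_⟩
        nlinarith [h1, h2, hsp, htw', hkt, h]

/-- Bit fixing for abstract algorithms. -/
theorem abstract_main [CompleteSpace H] (A : Alg N H) (hk1 : 1 ≤ A.k) (r : ℕ) (hr : 1 ≤ r)
    (Q : H →L[ℂ] H) (hQ : ∀ u v, inner ℂ (Q u) v = inner ℂ (Q u) (Q v)) (E Var : ℝ)
    (hE : E = avg (fun x => ‖Q (A.st r x)‖ ^ 2))
    (hVar : Var = avg (fun x => (‖Q (A.st r x)‖ ^ 2 - E) ^ 2)) (hpos : 0 < Var) :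
    ∃ (S : Finset (Fin N)) (a : Fin N → Bool),
      (S.card : ℝ) ≤ 4 * (r * A.k) *
        (64 * (r : ℝ) ^ 2 * A.k * (64 * (r : ℝ) ^ 4 * A.k ^ 2) ^ r) ^ 2 / Var ^ 3 ∧
      Var / 2 ≤ (avg (fun x => ‖Q (A.st r (ov S a x))‖ ^ 2) - E) ^ 2 := by
  have hk0 : 0 < A.k := by linarith
  have hr1 : (1 : ℝ) ≤ r := by exact_mod_cast hr
  set p : (Fin N → Bool) → ℝ := fun x => ‖Q (A.st r x)‖ ^ 2 with hp
  have hQn : ∀ v, ‖Q v‖ ≤ ‖v‖ := by
    intro v
    have h1 : ‖Q v‖ ^ 2 ≤ ‖Q v‖ * ‖v‖ := by
      have h2 := norm_inner_le_norm (𝕜 := ℂ) (Q v) v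
      rw [hQ, inner_self_eq_norm_sq_to_K] at h2
      simpa using h2
    by_contra hlt
    push Not at hlt
    have h3 : 0 ≤ ‖v‖ := norm_nonneg v
    nlinarith
  have hp0 : ∀ x, 0 ≤ p x := fun x => by simp only [hp]; positivity
  have hp1 : ∀ x, p x ≤ 1 := fun x => by
    have := (hQn (A.st r x)).trans (A.st_norm r x)
    have h3 := norm_nonneg (Q (A.st r x))
    simp only [hp]
    nlinarith
  have havg01 : ∀ g : (Fin N → Bool) → (Fin N → Bool), 0 ≤ avg (fun x => p (g x)) ∧
      avg (fun x => p (g x)) ≤ 1 := by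
    intro g
    refine ⟨avg_nonneg (fun x => hp0 _), ?_⟩
    calc avg (fun x => p (g x)) ≤ avg (fun _ : Fin N → Bool => (1 : ℝ)) := avg_mono (fun x => hp1 _)
      _ = 1 := avg_const _
  have hE01 : 0 ≤ E ∧ E ≤ 1 := by rw [hE]; exact havg01 id
  have hVar1 : Var ≤ 1 := by
    rw [hVar]
    calc avg (fun x => (‖Q (A.st r x)‖ ^ 2 - E) ^ 2) ≤ avg (fun _ : Fin N → Bool => (1 : ℝ)) := by
          refine avg_mono (fun x => ?_)
          have h1 := hp0 x
          have h2 := hp1 x
          simp only [hp] at h1 h2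
          have h3 : |‖Q (A.st r x)‖ ^ 2 - E| ≤ 1 := by
            rw [abs_le]; constructor <;> linarith [hE01.1, hE01.2]
          rw [← sq_abs]
          nlinarith [abs_nonneg (‖Q (A.st r x)‖ ^ 2 - E)]
      _ = 1 := avg_const _
  set D : ℝ := 64 * (r : ℝ) ^ 4 * A.k ^ 2 with hD
  have hD1 : 1 ≤ D := by
    have h1 : (1 : ℝ) ≤ (r : ℝ) ^ 4 := one_le_pow₀ hr1
    have h2 : (1 : ℝ) ≤ A.k ^ 2 := one_le_pow₀ hk1
    nlinarith [mul_le_mul h1 h2 (by norm_num) (by positivity)]
  set M : ℝ := 64 * (r : ℝ) ^ 2 * A.k * D ^ r with hM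
  have hM1 : 1 ≤ M := by
    have h1 : (1 : ℝ) ≤ (r : ℝ) ^ 2 := one_le_pow₀ hr1
    have h2 : (1 : ℝ) ≤ D ^ r := one_le_pow₀ hD1
    have h3 : 1 ≤ (r : ℝ) ^ 2 * A.k := by nlinarith
    have h4 : 1 ≤ (r : ℝ) ^ 2 * A.k * D ^ r := by nlinarith
    rw [hM]; nlinarith
  have hM0 : 0 < M := by linarith
  set θ : ℝ := Var / M with hθ
  have hθ0 : 0 < θ := div_pos hpos hM0
  have hθ1 : θ ≤ 1 := by
    rw [hθ, div_le_one hM0]; linarith
  set κ : ℝ := Var / (4 * (r * A.k)) with hκ
  have hrk : 0 < (r : ℝ) * A.k := by positivity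
  have hκ0 : 0 < κ := by positivity
  have hlight : ∀ S a, (∀ t < r, ∀ i, avg ((A.restrict S a).w t i) ≤ θ ^ 2) →
      avg (fun x => p (ov S a x) ^ 2) - avg (fun x => p (ov S a x)) ^ 2 ≤ Var / 4 := by
    intro S a hl
    have h := light_var (A.restrict S a) hk1 r hr hθ0 hθ1 hl Q hQ
    simp only [A.restrict_st] at h
    have e : 16 * (r : ℝ) ^ 2 * (A.restrict S a).k *
        (64 * (r : ℝ) ^ 4 * (A.restrict S a).k ^ 2) ^ r * θ = Var / 4 := by
      change 16 * (r : ℝ) ^ 2 * A.k * (64 * (r : ℝ) ^ 4 * A.k ^ 2) ^ r * θ = Var / 4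
      rw [← hD]
      have h5 : 16 * (r : ℝ) ^ 2 * A.k * D ^ r = M / 4 := by rw [hM]; ring
      rw [h5, hθ]
      field_simp
    rw [e] at h
    exact h
  obtain ⟨S, a, hSa⟩ := potential A r p E κ (θ ^ 2) (Var / 4) hκ0.le (by positivity) hlight N ∅
    (fun _ => false) (by omega)
  have hov : ∀ x : Fin N → Bool, ov ∅ (fun _ => false) x = x := by
    intro x; funext i; simp [ov]
  simp only [hov, Finset.card_empty, Nat.cast_zero, sub_zero] at hSa
  have hV' : avg (fun x => (p x - E) ^ 2) = Var := hVar.symm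
  rw [hV'] at hSa
  have htw : A.tw r ∅ (fun _ => false) ≤ r * A.k := by
    unfold Alg.tw
    calc ∑ t ∈ range r, ∑ i, avg ((A.restrict ∅ (fun _ => false)).w t i)
        ≤ ∑ t ∈ range r, A.k := by
          refine Finset.sum_le_sum (fun t _ => ?_)
          rw [← avg_sum]
          calc avg (fun x => ∑ i, (A.restrict ∅ (fun _ => false)).w t i x)
              ≤ avg (fun _ : Fin N → Bool => A.k) :=
                avg_mono (fun x => Alg.sum_w_le _ hk0.le t x)
            _ = A.k := avg_const _
      _ = r * A.k := by rw [Finset.sum_const, Finset.card_range, nsmul_eq_mul]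
  have hκtw : κ * A.tw r ∅ (fun _ => false) ≤ Var / 4 := by
    calc κ * A.tw r ∅ (fun _ => false) ≤ κ * (r * A.k) := mul_le_mul_of_nonneg_left htw hκ0.le
      _ = Var / 4 := by rw [hκ]; field_simp
  have hκτ : 0 < κ * θ ^ 2 := by positivity
  have hScard : (0 : ℝ) ≤ S.card := Nat.cast_nonneg _
  have hdev : Var / 2 + κ * θ ^ 2 * S.card ≤ (avg (fun x => p (ov S a x)) - E) ^ 2 := by
    linarith
  refine ⟨S, a, ?_, ?_⟩
  · have h1 : (avg (fun x => p (ov S a x)) - E) ^ 2 ≤ 1 := by
      have h2 := havg01 (ov S a)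
      have h3 : |avg (fun x => p (ov S a x)) - E| ≤ 1 := by
        rw [abs_le]; constructor <;> linarith [hE01.1, hE01.2, h2.1, h2.2]
      rw [← sq_abs]
      nlinarith [abs_nonneg (avg (fun x => p (ov S a x)) - E)]
    have h2 : κ * θ ^ 2 * S.card ≤ 1 := by linarith
    have h3 : (S.card : ℝ) ≤ 1 / (κ * θ ^ 2) := by
      rw [le_div_iff₀ hκτ]; linarith
    refine h3.trans (le_of_eq ?_)
    rw [hκ, hθ]
    field_simp
  · have : 0 ≤ κ * θ ^ 2 * S.card := by positivity
    linarith

end Pool.Agent.H.MP_58d537_lc.A20
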