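import Mathlib
import Pool.Agent.H.MP_58d537_lc.A20.Restrict

set_option autoImplicit false

namespace Pool.Agent.H.MP_58d537_lc.A20

open Finset Matrix

section diag

variable {B : Type*} [Fintype B] [DecidableEq B]

/-- Matrices as operators on Euclidean space. -/
noncomputable abbrev op (M : Matrix B B ℂ) : EuclideanSpace ℂ B →L[ℂ] EuclideanSpace ℂ B :=
  Matrix.toEuclideanCLM (n := B) (𝕜 := ℂ) M

lemma op_diag_apply (d : B → ℂ) (v : EuclideanSpace ℂ B) (b : B) :
    (op (Matrix.diagonal d) v) b = d b * v b := by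
  change (Matrix.diagonal d *ᵥ (WithLp.ofLp v)) b = _
  rw [Matrix.mulVec_diagonal]

lemma op_norm_unitary (U : Matrix.unitaryGroup B ℂ) : ‖op U.1‖ ≤ 1 := by
  refine ContinuousLinearMap.opNorm_le_bound _ zero_le_one (fun v => ?_)
  have h : ContinuousLinearMap.adjoint (op U.1) * op U.1 = 1 := by
    have h1 : star U.1 * U.1 = 1 := Matrix.mem_unitaryGroup_iff'.mp U.2
    have h2 : star (op U.1) = op (star U.1) := (map_star _ _).symm
    rw [← ContinuousLinearMap.star_eq_adjoint, h2, ← map_mul, h1, map_one]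
  have h3 : ‖op U.1 v‖ ^ 2 = ‖v‖ ^ 2 := by
    have e1 : inner ℂ (op U.1 v) (op U.1 v) = inner ℂ v v := by
      rw [← ContinuousLinearMap.adjoint_inner_left, ← mul_apply_eq_comp, h]
      rfl
    rw [inner_self_eq_norm_sq_to_K, inner_self_eq_norm_sq_to_K] at e1
    exact_mod_cast e1
  have h4 : ‖op U.1 v‖ = ‖v‖ := by
    have := abs_eq_abs.mpr (sq_eq_sq_iff_abs_eq_abs _ _ |>.mp h3 |> fun h => Or.inl (by
      simpa [abs_of_nonneg (norm_nonneg _)] using h))
    simpa [abs_of_nonneg (norm_nonneg _)] using this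
  rw [h4, one_mul]

lemma op_diag_norm_le (d : B → ℂ) (hd : ∀ b, ‖d b‖ ≤ 1) : ‖op (Matrix.diagonal d)‖ ≤ 1 := by
  refine ContinuousLinearMap.opNorm_le_bound _ zero_le_one (fun v => ?_)
  rw [one_mul]
  have h : ‖op (Matrix.diagonal d) v‖ ^ 2 ≤ ‖v‖ ^ 2 := by
    rw [EuclideanSpace.norm_sq_eq, EuclideanSpace.norm_sq_eq]
    refine Finset.sum_le_sum (fun b _ => ?_)
    rw [op_diag_apply, norm_mul]
    have h1 := hd b
    have h2 := norm_nonneg (v b)
    have h3 := norm_nonneg (d b)
    have : ‖d b‖ * ‖v b‖ ≤ ‖v b‖ := by nlinarith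
    exact pow_le_pow_left₀ (by positivity) this 2
  exact le_of_sq_le_sq h (norm_nonneg v)

lemma op_proj (d : B → ℂ) (hd : ∀ b, d b = 0 ∨ d b = 1) (u v : EuclideanSpace ℂ B) :
    inner ℂ (op (Matrix.diagonal d) u) v
      = inner ℂ (op (Matrix.diagonal d) u) (op (Matrix.diagonal d) v) := by
  rw [PiLp.inner_apply, PiLp.inner_apply]
  refine Finset.sum_congr rfl (fun b _ => ?_)
  rw [op_diag_apply, op_diag_apply]
  rcases hd b with h | h <;> simp [h]

end diag

section par

/-- Phase of the parallel oracle. -/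
noncomputable def phase {N k m : ℕ} (x : Fin N → Bool) (b : (Fin k → Option (Fin N)) × Fin m) : ℂ :=
  ∏ l : Fin k, Option.elim (b.1 l) (1 : ℂ) (fun i => if x i then -1 else 1)

/-- Number of registers of `b` holding the index `i`. -/
def cnt {N k m : ℕ} (i : Fin N) (b : (Fin k → Option (Fin N)) × Fin m) : ℕ :=
  (Finset.univ.filter (fun l => b.1 l = some i)).card

lemma phase_flip {N k m : ℕ} (x : Fin N → Bool) (i : Fin N)
    (b : (Fin k → Option (Fin N)) × Fin m) :
    phase (flip x i) b = phase x b * (if Odd (cnt i b) then -1 else 1) := by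
  have h1 : ∀ l : Fin k, Option.elim (b.1 l) (1 : ℂ) (fun j => if flip x i j then -1 else 1)
      = Option.elim (b.1 l) (1 : ℂ) (fun j => if x j then -1 else 1)
        * (if b.1 l = some i then -1 else 1) := by
    intro l
    rcases hb : b.1 l with _ | j
    · simp
    · simp only [Option.elim_some, Option.some.injEq]
      by_cases hji : j = i
      · subst hji
        rcases hx : x j with _ | _ <;> simp [flip, hx]
      · simp [flip, hji]
  unfold phase
  simp only [h1]
  rw [Finset.prod_mul_distrib]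
  congr 1
  rw [Finset.prod_ite, Finset.prod_const, Finset.prod_const_one, mul_one]
  change (-1 : ℂ) ^ (cnt i b) = _
  by_cases h : Odd (cnt i b)
  · rw [if_pos h, h.neg_one_pow]
  · rw [if_neg h, (Nat.not_odd_iff_even.mp h).neg_one_pow]

lemma phase_norm {N k m : ℕ} (x : Fin N → Bool) (b : (Fin k → Option (Fin N)) × Fin m) :
    ‖phase x b‖ = 1 := by
  unfold phase
  rw [norm_prod]
  refine Finset.prod_eq_one (fun l _ => ?_)
  rcases hb : b.1 l with _ | j
  · simp
  · by_cases h : x j <;> simp [h]

lemma sum_odd_le {N k m : ℕ} (b : (Fin k → Option (Fin N)) × Fin m) :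
    ∑ i : Fin N, (if Odd (cnt i b) then (1 : ℝ) else 0) ≤ k := by
  calc ∑ i : Fin N, (if Odd (cnt i b) then (1 : ℝ) else 0)
      ≤ ∑ i : Fin N, ∑ l : Fin k, (if b.1 l = some i then (1 : ℝ) else 0) := by
        refine Finset.sum_le_sum (fun i _ => ?_)
        have h1 : ∑ l : Fin k, (if b.1 l = some i then (1 : ℝ) else 0) = (cnt i b : ℝ) := by
          unfold cnt
          rw [Finset.sum_ite]
          simp
        rw [h1]
        by_cases h : Odd (cnt i b)
        · rw [if_pos h]
          exact_mod_cast h.pos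
        · rw [if_neg h]
          positivity
    _ = ∑ l : Fin k, ∑ i : Fin N, (if b.1 l = some i then (1 : ℝ) else 0) := Finset.sum_comm
    _ ≤ ∑ _l : Fin k, (1 : ℝ) := by
        refine Finset.sum_le_sum (fun l _ => ?_)
        rcases hb : b.1 l with _ | j
        · simp
        · simp
    _ = k := by simp

/-- The abstract algorithm attached to a parallel-query algorithm with `r` rounds. -/
noncomputable def parAlg {N r k m : ℕ}
    (U : Fin (r + 1) → Matrix.unitaryGroup ((Fin k → Option (Fin N)) × Fin m) ℂ)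
    (s₀ : (Fin k → Option (Fin N)) × Fin m) :
    Alg N (EuclideanSpace ℂ ((Fin k → Option (Fin N)) × Fin m)) where
  O x := op (Matrix.diagonal (phase x))
  V t := if h : t < r then op (U ⟨t + 1, by omega⟩).1 else 1
  P i := op (Matrix.diagonal (fun b => if Odd (cnt i b) then 1 else 0))
  st0 := op (U 0).1 (EuclideanSpace.single s₀ 1)
  k := k
  hO x := op_diag_norm_le _ (fun b => (phase_norm x b).le)
  hV t := by
    by_cases h : t < r
    · simp only [h, dif_pos]; exact op_norm_unitary _
    · simp only [h, dif_neg, not_false_eq_true]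
      exact ContinuousLinearMap.norm_id_le
  h0 := by
    refine (ContinuousLinearMap.le_opNorm _ _).trans ?_
    rw [PiLp.norm_single, norm_one, mul_one]
    exact op_norm_unitary _
  hP i u v := op_proj _ (fun b => by by_cases h : Odd (cnt i b) <;> simp [h]) u v
  hk v := by
    have h1 : ∀ i : Fin N, ‖op (Matrix.diagonal (fun b : (Fin k → Option (Fin N)) × Fin m =>
        if Odd (cnt i b) then (1 : ℂ) else 0)) v‖ ^ 2
        = ∑ b, (if Odd (cnt i b) then (1 : ℝ) else 0) * ‖v b‖ ^ 2 := by
      intro i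
      rw [EuclideanSpace.norm_sq_eq]
      refine Finset.sum_congr rfl (fun b _ => ?_)
      rw [op_diag_apply]
      by_cases h : Odd (cnt i b) <;> simp [h]
    simp only [h1]
    rw [Finset.sum_comm, EuclideanSpace.norm_sq_eq, Finset.mul_sum]
    refine Finset.sum_le_sum (fun b _ => ?_)
    rw [← Finset.sum_mul]
    exact mul_le_mul_of_nonneg_right (sum_odd_le b) (by positivity)
  hflip x i v := by
    ext b
    rw [op_diag_apply, op_diag_apply, phase_flip]
    have : (v - (2 : ℂ) • op (Matrix.diagonal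
        (fun b : (Fin k → Option (Fin N)) × Fin m => if Odd (cnt i b) then (1 : ℂ) else 0)) v) b
        = v b - 2 * (op (Matrix.diagonal
        (fun b : (Fin k → Option (Fin N)) × Fin m => if Odd (cnt i b) then (1 : ℂ) else 0)) v) b :=
      rfl
    rw [this, op_diag_apply]
    by_cases h : Odd (cnt i b)
    · simp only [h, if_true]; ring
    · simp only [h, if_false]; ring

lemma parAlg_st {N r k m : ℕ}
    (U : Fin (r + 1) → Matrix.unitaryGroup ((Fin k → Option (Fin N)) × Fin m) ℂ)
    (s₀ : (Fin k → Option (Fin N)) × Fin m) (x : Fin N → Bool) :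
    (parAlg U s₀).st r x = op ((List.ofFn (fun t : Fin r =>
        (U t.succ).1 * Matrix.diagonal (phase x))).reverse.prod * (U 0).1)
          (EuclideanSpace.single s₀ 1) := by
  let G : ℕ → Matrix ((Fin k → Option (Fin N)) × Fin m) ((Fin k → Option (Fin N)) × Fin m) ℂ :=
    fun t => if h : t < r then (U ⟨t + 1, by omega⟩).1 * Matrix.diagonal (phase x) else 1
  have key : ∀ n ≤ r, (parAlg U s₀).st n x = op ((List.ofFn (fun t : Fin n =>
      G t)).reverse.prod * (U 0).1) (EuclideanSpace.single s₀ 1) := by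
    intro n
    induction n with
    | zero =>
      intro _
      change op (U 0).1 (EuclideanSpace.single s₀ 1) = _
      simp
    | succ n ih =>
      intro hn
      have h1 : (parAlg U s₀).st (n + 1) x
          = (parAlg U s₀).V n ((parAlg U s₀).O x ((parAlg U s₀).st n x)) := rfl
      have hV : (parAlg U s₀).V n = op (U ⟨n + 1, by omega⟩).1 := by
        have hnr : n < r := by omega
        simp [parAlg, hnr]
      have hO : (parAlg U s₀).O x = op (Matrix.diagonal (phase x)) := rfl
      have hG : G n = (U ⟨n + 1, by omega⟩).1 * Matrix.diagonal (phase x) := by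
        have hnr : n < r := by omega
        simp [G, hnr]
      rw [h1, ih (by omega), hV, hO, List.ofFn_succ_last, List.reverse_append,
        List.reverse_singleton, List.singleton_append, List.prod_cons]
      simp only [Fin.val_last, Fin.val_castSucc]
      rw [hG]
      simp only [op, map_mul, mul_assoc]
      rfl
  rw [key r le_rfl]
  have : (fun t : Fin r => G t) = (fun t : Fin r => (U t.succ).1 * Matrix.diagonal (phase x)) := by
    funext t
    simp only [G, t.2, dif_pos]
    rfl
  rw [this]

lemma acc_norm {B : Type*} [Fintype B] [DecidableEq B] (Acc : Finset B) (M : Matrix B B ℂ)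
    (s₀ : B) :
    ‖op (Matrix.diagonal (fun b => if b ∈ Acc then (1 : ℂ) else 0))
      (op M (EuclideanSpace.single s₀ 1))‖ ^ 2 = ∑ s ∈ Acc, ‖M s s₀‖ ^ 2 := by
  rw [EuclideanSpace.norm_sq_eq]
  have h1 : ∀ b, (op M (EuclideanSpace.single s₀ (1 : ℂ))) b = M b s₀ := by
    intro b
    change (M *ᵥ (WithLp.ofLp (EuclideanSpace.single s₀ (1 : ℂ)))) b = _
    simp
  simp only [op_diag_apply, h1]
  rw [← Finset.sum_filter_add_sum_filter_not Finset.univ (fun b => b ∈ Acc)]
  have h2 : ∑ b ∈ Finset.univ.filter (fun b => b ∉ Acc),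
      ‖(if b ∈ Acc then (1 : ℂ) else 0) * M b s₀‖ ^ 2 = 0 := by
    refine Finset.sum_eq_zero (fun b hb => ?_)
    simp [(Finset.mem_filter.mp hb).2]
  rw [h2, add_zero]
  have h3 : Finset.univ.filter (fun b => b ∈ Acc) = Acc := by ext; simp
  rw [h3]
  refine Finset.sum_congr rfl (fun b hb => ?_)
  simp [hb]

end par

end Pool.Agent.H.MP_58d537_lc.A20
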