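import Mathlib
import Pool.Agent.H.MP_58d537_lc.A20.Concrete

set_option autoImplicit false

namespace Pool.Agent.H.MP_58d537_lc.A20

open Finset

/-- Averaging twice over the two halves of the coordinates is averaging once. -/
lemma avg_avg_ov {N : ℕ} (S : Finset (Fin N)) (g : (Fin N → Bool) → ℝ) :
    avg (fun a => avg (fun y => g (ov S a y))) = avg g := by
  have hsum : ∑ a : Fin N → Bool, ∑ y : Fin N → Bool, g (ov S a y)
      = ∑ a : Fin N → Bool, ∑ _y : Fin N → Bool, g a := by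
    rw [← Fintype.sum_prod_type' (f := fun a y => g (ov S a y)),
      ← Fintype.sum_prod_type' (f := fun a _ => g a)]
    let e : ((Fin N → Bool) × (Fin N → Bool)) → ((Fin N → Bool) × (Fin N → Bool)) :=
      fun q => (ov S q.1 q.2, ov S q.2 q.1)
    have he : Function.Involutive e := by
      intro q
      refine Prod.ext ?_ ?_
      · funext i
        by_cases hi : i ∈ S <;> simp [e, ov, hi]
      · funext i
        by_cases hi : i ∈ S <;> simp [e, ov, hi]
    exact Equiv.sum_comp (Function.Involutive.toPerm e he)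
      (fun q : (Fin N → Bool) × (Fin N → Bool) => g q.1)
  unfold avg
  rw [← Finset.sum_div, hsum]
  simp only [Finset.sum_const, Finset.card_univ, Fintype.card_pi, Fintype.card_bool,
    Finset.prod_const, Fintype.card_fin, nsmul_eq_mul]
  push_cast
  rw [← Finset.mul_sum]
  field_simp

/-- If every restriction to a subcube fixing `S` has small variance then some such subcube
moves the mean. -/
lemma exists_dev {N : ℕ} (S : Finset (Fin N)) (p : (Fin N → Bool) → ℝ) (E Var : ℝ)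
    (hE : E = avg p) (hVar : Var = avg (fun x => (p x - E) ^ 2))
    (hS : ∀ a, avg (fun y => p (ov S a y) ^ 2) - avg (fun y => p (ov S a y)) ^ 2 ≤ Var / 2) :
    ∃ a, Var / 2 ≤ (avg (fun y => p (ov S a y)) - E) ^ 2 := by
  by_contra hcon
  push Not at hcon
  have h1 : avg (fun a => (avg (fun y => p (ov S a y)) - E) ^ 2) < Var / 2 := by
    have haux : ∀ F : (Fin N → Bool) → ℝ, (∀ a, F a < Var / 2) → avg F < Var / 2 := by
      intro F hF
      have : ∑ a : Fin N → Bool, F a < ∑ _a : Fin N → Bool, Var / 2 :=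
        Finset.sum_lt_sum_of_nonempty ⟨fun _ => false, Finset.mem_univ _⟩ (fun a _ => hF a)
      rw [Finset.sum_const, Finset.card_univ, Fintype.card_pi] at this
      simp only [Fintype.card_bool, Finset.prod_const, Finset.card_univ, Fintype.card_fin,
        nsmul_eq_mul] at this
      push_cast at this
      unfold avg
      rw [div_lt_iff₀ (by positivity)]
      linarith
    exact haux _ hcon
  have h2 : avg (fun a => avg (fun y => p (ov S a y) ^ 2) - avg (fun y => p (ov S a y)) ^ 2)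
      ≤ Var / 2 := by
    calc _ ≤ avg (fun _ : Fin N → Bool => Var / 2) := avg_mono hS
      _ = Var / 2 := avg_const _
  rw [avg_sub, avg_avg_ov S (fun x => p x ^ 2)] at h2
  have h3 : avg (fun a => (avg (fun y => p (ov S a y)) - E) ^ 2)
      = avg (fun a => avg (fun y => p (ov S a y)) ^ 2) - E ^ 2 := by
    have e : ∀ a, (avg (fun y => p (ov S a y)) - E) ^ 2
        = (avg (fun y => p (ov S a y)) ^ 2 + (-(2 * E)) * avg (fun y => p (ov S a y)))
          + E ^ 2 := fun a => by ring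
    simp only [e]
    rw [avg_add, avg_add, avg_const_mul, avg_const, avg_avg_ov S p, ← hE]
    ring
  have h4 : Var = avg (fun x => p x ^ 2) - E ^ 2 := by
    have e : ∀ x, (p x - E) ^ 2 = (p x ^ 2 + (-(2 * E)) * p x) + E ^ 2 := fun x => by ring
    rw [hVar]
    simp only [e]
    rw [avg_add, avg_add, avg_const_mul, avg_const, ← hE]
    ring
  linarith

variable {N : ℕ} {H : Type*} [NormedAddCommGroup H] [InnerProductSpace ℂ H]

/-- Variance bound through the largest total query magnitude. -/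
lemma Alg.var_le_peak [CompleteSpace H] (A : Alg N H) (hk0 : 0 ≤ A.k) (r : ℕ) {τ : ℝ}
    (hτ : 0 ≤ τ) (hw : ∀ i x, ∑ s ∈ range r, A.w s i x ≤ τ)
    (Q : H →L[ℂ] H) (hQ : ∀ u v, inner ℂ (Q u) v = inner ℂ (Q u) (Q v)) :
    avg (fun x => (‖Q (A.st r x)‖ ^ 2) ^ 2) - avg (fun x => ‖Q (A.st r x)‖ ^ 2) ^ 2 ≤
      8 * (r * A.k) * τ := by
  have hQn : ∀ v, ‖Q v‖ ≤ ‖v‖ := by
    intro v
    have h1 : ‖Q v‖ ^ 2 ≤ ‖Q v‖ * ‖v‖ := by
      have h2 := norm_inner_le_norm (𝕜 := ℂ) (Q v) v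
      rw [hQ, inner_self_eq_norm_sq_to_K] at h2
      simpa using h2
    by_contra hlt
    push Not at hlt
    have h3 : 0 ≤ ‖v‖ := norm_nonneg v
    nlinarith
  have key : ∀ x, ∑ i, (max (‖Q (A.st r x)‖ ^ 2 - ‖Q (A.st r (flip x i))‖ ^ 2) 0) ^ 2
      ≤ 16 * (r * A.k) * τ := by
    intro x
    obtain ⟨β, hβ, hβ'⟩ := A.back r x (Q (A.st r x))
    have hβ1 : ∀ s, ‖β s‖ ^ 2 ≤ 1 := by
      intro s
      have h1 := (hβ s).trans ((hQn (A.st r x)).trans (A.st_norm r x))
      have h2 := norm_nonneg (β s)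
      nlinarith
    have hi : ∀ i, (max (‖Q (A.st r x)‖ ^ 2 - ‖Q (A.st r (flip x i))‖ ^ 2) 0) ^ 2
        ≤ 16 * τ * ∑ s ∈ range r, ‖A.P i (β s)‖ ^ 2 := by
      intro i
      have h1 : ‖Q (A.st r x)‖ ^ 2 - ‖Q (A.st r (flip x i))‖ ^ 2 ≤
          4 * ∑ s ∈ range r, ‖A.P i (β s)‖ * ‖A.P i (A.st s (flip x i))‖ := by
        set δ := A.st r (flip x i) - A.st r x with hδ
        have e1 : Q (A.st r (flip x i)) = Q (A.st r x) + Q δ := by
          rw [hδ, map_sub]; abel
        have e2 : ‖Q (A.st r (flip x i))‖ ^ 2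
            = ‖Q (A.st r x)‖ ^ 2 + 2 * RCLike.re (inner ℂ (Q (A.st r x)) (Q δ)) + ‖Q δ‖ ^ 2 := by
          rw [e1, norm_add_sq (𝕜 := ℂ)]
        have e3 : -‖inner ℂ (Q (A.st r x)) δ‖ ≤ RCLike.re (inner ℂ (Q (A.st r x)) (Q δ)) := by
          rw [← hQ]
          exact neg_le_of_abs_le (RCLike.abs_re_le_norm _)
        have e4 := hβ' i
        have e5 : 0 ≤ ‖Q δ‖ ^ 2 := by positivity
        rw [e2]
        linarith
      have h0 : 0 ≤ ∑ s ∈ range r, ‖A.P i (β s)‖ * ‖A.P i (A.st s (flip x i))‖ :=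
        Finset.sum_nonneg (fun s _ => by positivity)
      have h2 : max (‖Q (A.st r x)‖ ^ 2 - ‖Q (A.st r (flip x i))‖ ^ 2) 0 ≤
          4 * ∑ s ∈ range r, ‖A.P i (β s)‖ * ‖A.P i (A.st s (flip x i))‖ :=
        max_le h1 (by linarith)
      have h3 := Finset.sum_mul_sq_le_sq_mul_sq (range r) (fun s => ‖A.P i (β s)‖)
        (fun s => ‖A.P i (A.st s (flip x i))‖)
      have h4 : ∑ s ∈ range r, ‖A.P i (A.st s (flip x i))‖ ^ 2 ≤ τ := hw i (flip x i)
      have h5 : 0 ≤ ∑ s ∈ range r, ‖A.P i (β s)‖ ^ 2 :=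
        Finset.sum_nonneg (fun s _ => by positivity)
      calc (max (‖Q (A.st r x)‖ ^ 2 - ‖Q (A.st r (flip x i))‖ ^ 2) 0) ^ 2
          ≤ (4 * ∑ s ∈ range r, ‖A.P i (β s)‖ * ‖A.P i (A.st s (flip x i))‖) ^ 2 :=
            pow_le_pow_left₀ (le_max_right _ _) h2 2
        _ = 16 * (∑ s ∈ range r, ‖A.P i (β s)‖ * ‖A.P i (A.st s (flip x i))‖) ^ 2 := by ring
        _ ≤ 16 * ((∑ s ∈ range r, ‖A.P i (β s)‖ ^ 2) * τ) := by
            have := mul_le_mul_of_nonneg_left h4 h5
            linarith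
        _ = _ := by ring
    calc ∑ i, (max (‖Q (A.st r x)‖ ^ 2 - ‖Q (A.st r (flip x i))‖ ^ 2) 0) ^ 2
        ≤ ∑ i, 16 * τ * ∑ s ∈ range r, ‖A.P i (β s)‖ ^ 2 := Finset.sum_le_sum (fun i _ => hi i)
      _ = 16 * τ * ∑ s ∈ range r, ∑ i, ‖A.P i (β s)‖ ^ 2 := by
          rw [← Finset.mul_sum, Finset.sum_comm]
      _ ≤ 16 * τ * ∑ s ∈ range r, A.k := by
          refine mul_le_mul_of_nonneg_left (Finset.sum_le_sum (fun s _ => ?_)) (by positivity)
          refine (A.hk (β s)).trans ?_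
          have := mul_le_mul_of_nonneg_left (hβ1 s) hk0
          linarith
      _ = 16 * (r * A.k) * τ := by
          rw [Finset.sum_const, Finset.card_range, nsmul_eq_mul]; ring
  have hES := efronStein_pos (fun x => ‖Q (A.st r x)‖ ^ 2)
  refine hES.trans ?_
  have h1 : avg (fun x => ∑ i, (max (‖Q (A.st r x)‖ ^ 2 - ‖Q (A.st r (flip x i))‖ ^ 2) 0) ^ 2)
      ≤ 16 * (r * A.k) * τ := by
    calc _ ≤ avg (fun _ : Fin N → Bool => 16 * (r * A.k) * τ) := avg_mono key
      _ = _ := avg_const _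
  linarith

/-- Abstract form of the peak theorem. -/
theorem peak_main [CompleteSpace H] (A : Alg N H) (hk0 : 0 ≤ A.k) (r : ℕ)
    (c : Fin N → ℝ) (hc : ∀ i x, ∑ s ∈ range r, A.w s i x ≤ c i) (hT : 0 < r * A.k)
    (Q : H →L[ℂ] H) (hQ : ∀ u v, inner ℂ (Q u) v = inner ℂ (Q u) (Q v)) (E Var : ℝ)
    (hE : E = avg (fun x => ‖Q (A.st r x)‖ ^ 2))
    (hVar : Var = avg (fun x => (‖Q (A.st r x)‖ ^ 2 - E) ^ 2)) (hpos : 0 < Var) :
    ∃ (S : Finset (Fin N)) (a : Fin N → Bool),
      (S.card : ℝ) ≤ 16 * (r * A.k) * (∑ i, c i) / Var ∧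
      Var / 2 ≤ (avg (fun x => ‖Q (A.st r (ov S a x))‖ ^ 2) - E) ^ 2 := by
  have hc0 : ∀ i, 0 ≤ c i := fun i =>
    (Finset.sum_nonneg (fun s _ => A.w_nonneg s i (fun _ => false))).trans (hc i _)
  obtain ⟨T, hTdef⟩ : ∃ T : ℝ, T = r * A.k := ⟨_, rfl⟩
  rw [← hTdef] at hT ⊢
  have hTne : T ≠ 0 := hT.ne'
  set τ : ℝ := Var / (16 * T) with hτ
  have hτ0 : 0 < τ := by positivity
  set S : Finset (Fin N) := Finset.univ.filter (fun i => τ < c i) with hS
  have hcard : (S.card : ℝ) * τ ≤ ∑ i, c i := by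
    calc (S.card : ℝ) * τ = ∑ _i ∈ S, τ := by rw [Finset.sum_const, nsmul_eq_mul]
      _ ≤ ∑ i ∈ S, c i := Finset.sum_le_sum (fun i hi => (Finset.mem_filter.mp hi).2.le)
      _ ≤ ∑ i, c i := Finset.sum_le_univ_sum_of_nonneg hc0
  have hvar : ∀ a, avg (fun y => (fun x => ‖Q (A.st r x)‖ ^ 2) (ov S a y) ^ 2)
      - avg (fun y => (fun x => ‖Q (A.st r x)‖ ^ 2) (ov S a y)) ^ 2 ≤ Var / 2 := by
    intro a
    have hw : ∀ i x, ∑ s ∈ range r, (A.restrict S a).w s i x ≤ τ := by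
      intro i x
      by_cases hi : i ∈ S
      · have : ∀ s, (A.restrict S a).w s i x = 0 := by
          intro s; simp [Alg.w, Alg.restrict, hi]
        simp only [this, Finset.sum_const_zero]
        exact hτ0.le
      · have h1 : ∀ s, (A.restrict S a).w s i x = A.w s i (ov S a x) := by
          intro s
          unfold Alg.w
          rw [A.restrict_st]
          simp [Alg.restrict, hi]
        simp only [h1]
        have h2 : c i ≤ τ := by
          by_contra hlt
          push Not at hlt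
          exact hi (Finset.mem_filter.mpr ⟨Finset.mem_univ _, hlt⟩)
        exact (hc i _).trans h2
    have h := (A.restrict S a).var_le_peak hk0 r hτ0.le hw Q hQ
    simp only [A.restrict_st] at h
    have e : 8 * (r * (A.restrict S a).k) * τ = Var / 2 := by
      change 8 * (r * A.k) * τ = Var / 2
      rw [← hTdef, hτ]
      field_simp
      norm_num
    rw [e] at h
    exact h
  obtain ⟨a, ha⟩ := exists_dev S (fun x => ‖Q (A.st r x)‖ ^ 2) E Var hE hVar hvar
  refine ⟨S, a, ?_, ha⟩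
  rw [le_div_iff₀ hpos]
  have h1 : (S.card : ℝ) * Var = (S.card : ℝ) * τ * (16 * T) := by
    rw [hτ]; field_simp
  rw [h1]
  have h2 : (0 : ℝ) < 16 * T := by positivity
  have h3 := mul_le_mul_of_nonneg_right hcard h2.le
  linarith

end Pool.Agent.H.MP_58d537_lc.A20
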