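import Mathlib
import Pool.Agent.H.MP_58d537_lc.A20.Peak

set_option autoImplicit false

namespace Pool.Agent.H.MP_58d537_lc.A20

open Finset Matrix

section seq

variable {N T : ℕ} {B : Type*} [Fintype B] [DecidableEq B]

/-- Phase of a single query. -/
noncomputable def sph (q : B → Option (Fin N)) (x : Fin N → Bool) (b : B) : ℂ :=
  Option.elim (q b) (1 : ℂ) (fun i => if x i then -1 else 1)

lemma sph_flip (q : B → Option (Fin N)) (x : Fin N → Bool) (i : Fin N) (b : B) :
    sph q (flip x i) b = sph q x b * (if q b = some i then -1 else 1) := by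
  unfold sph
  rcases hb : q b with _ | j
  · simp
  · simp only [Option.elim_some, Option.some.injEq]
    by_cases hji : j = i
    · subst hji
      rcases hx : x j with _ | _ <;> simp [flip, hx]
    · simp [flip, hji]

lemma sph_norm (q : B → Option (Fin N)) (x : Fin N → Bool) (b : B) : ‖sph q x b‖ = 1 := by
  unfold sph
  rcases hb : q b with _ | j
  · simp
  · by_cases h : x j <;> simp [h]

/-- The abstract algorithm attached to a sequential query algorithm. -/
noncomputable def seqAlg (q : B → Option (Fin N))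
    (U : Fin (T + 1) → Matrix.unitaryGroup B ℂ) (s₀ : B) :
    Alg N (EuclideanSpace ℂ B) where
  O x := op (Matrix.diagonal (sph q x))
  V t := if h : t < T then op (U ⟨t + 1, by omega⟩).1 else 1
  P i := op (Matrix.diagonal (fun b => if q b = some i then 1 else 0))
  st0 := op (U 0).1 (EuclideanSpace.single s₀ 1)
  k := 1
  hO x := op_diag_norm_le _ (fun b => (sph_norm q x b).le)
  hV t := by
    by_cases h : t < T
    · simp only [h, dif_pos]; exact op_norm_unitary _
    · simp only [h, dif_neg, not_false_eq_true]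
      exact ContinuousLinearMap.norm_id_le
  h0 := by
    refine (ContinuousLinearMap.le_opNorm _ _).trans ?_
    rw [PiLp.norm_single, norm_one, mul_one]
    exact op_norm_unitary _
  hP i u v := op_proj _ (fun b => by by_cases h : q b = some i <;> simp [h]) u v
  hk v := by
    have h1 : ∀ i : Fin N, ‖op (Matrix.diagonal (fun b : B =>
        if q b = some i then (1 : ℂ) else 0)) v‖ ^ 2
        = ∑ b, (if q b = some i then (1 : ℝ) else 0) * ‖v b‖ ^ 2 := by
      intro i
      rw [EuclideanSpace.norm_sq_eq]
      refine Finset.sum_congr rfl (fun b _ => ?_)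
      rw [op_diag_apply]
      by_cases h : q b = some i <;> simp [h]
    simp only [h1]
    rw [Finset.sum_comm, EuclideanSpace.norm_sq_eq, Finset.mul_sum]
    refine Finset.sum_le_sum (fun b _ => ?_)
    rw [← Finset.sum_mul]
    refine mul_le_mul_of_nonneg_right ?_ (by positivity)
    rcases hb : q b with _ | j
    · simp
    · simp
  hflip x i v := by
    ext b
    rw [op_diag_apply, op_diag_apply, sph_flip]
    have : (v - (2 : ℂ) • op (Matrix.diagonal
        (fun b : B => if q b = some i then (1 : ℂ) else 0)) v) b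
        = v b - 2 * (op (Matrix.diagonal
        (fun b : B => if q b = some i then (1 : ℂ) else 0)) v) b :=
      rfl
    rw [this, op_diag_apply]
    by_cases h : q b = some i
    · simp only [h, if_true]; ring
    · simp only [h, if_false]; ring

lemma seqAlg_st (q : B → Option (Fin N)) (U : Fin (T + 1) → Matrix.unitaryGroup B ℂ) (s₀ : B)
    (x : Fin N → Bool) (ψ : Fin (T + 1) → B → ℂ)
    (h0 : ψ 0 = (U 0).1 *ᵥ Pi.single s₀ 1)
    (hs : ∀ t : Fin T, ψ t.succ = (U t.succ).1 *ᵥ (fun b => sph q x b * ψ t.castSucc b))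
    (n : ℕ) (hn : n ≤ T) :
    (seqAlg q U s₀).st n x = WithLp.toLp 2 (ψ ⟨n, by omega⟩) := by
  induction n with
  | zero =>
    have e : (⟨0, by omega⟩ : Fin (T + 1)) = 0 := rfl
    rw [e, h0]
    rfl
  | succ n ih =>
    have h1 : (seqAlg q U s₀).st (n + 1) x
        = (seqAlg q U s₀).V n ((seqAlg q U s₀).O x ((seqAlg q U s₀).st n x)) := rfl
    have hV : (seqAlg q U s₀).V n = op (U ⟨n + 1, by omega⟩).1 := by
      have hnr : n < T := by omega
      simp [seqAlg, hnr]
    have hO : (seqAlg q U s₀).O x = op (Matrix.diagonal (sph q x)) := rfl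
    have h2 := hs ⟨n, by omega⟩
    have e1 : (⟨n, by omega⟩ : Fin T).succ = ⟨n + 1, by omega⟩ := rfl
    have e2 : (⟨n, by omega⟩ : Fin T).castSucc = ⟨n, by omega⟩ := rfl
    rw [e1, e2] at h2
    rw [h1, hV, hO, ih (by omega), h2]
    have h3 : op (Matrix.diagonal (sph q x)) (WithLp.toLp 2 (ψ ⟨n, by omega⟩))
        = WithLp.toLp 2 (fun b => sph q x b * ψ ⟨n, by omega⟩ b) := by
      ext b
      rw [op_diag_apply]
    rw [h3]
    rfl

end seq

end Pool.Agent.H.MP_58d537_lc.A20
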